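import Pool.Agent.H29.ENR.Stmts5

/-!
# Board enr, part 7: abelian Sylow subgroups, outer automorphisms acting as power maps

One type which contains the cyclic type and the inner abelian type.
-/

set_option autoImplicit false

namespace Pool.ENR

open Pool.Agent.H81.ENG

/-- `A` is an abelian `p`-subgroup on which `σ` acts as a power map, normalised by an element `n` of
order prime to `p` with `σ n ∈ A n`, and `n` does not commute with all `p ^ (c-1)`-th powers of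
elements of `A`. -/
def Gal (p c : ℕ) {T : Type} [Group T] (σ : MulAut T) : Prop :=
  ∃ (A : Subgroup T) (n : T) (k lam : ℕ), IsPGroup p A ∧ (∀ x ∈ A, ∀ y ∈ A, x * y = y * x) ∧
    (∀ x ∈ A, σ x = x ^ lam) ∧ (∀ x, x ∈ A ↔ n * x * n⁻¹ ∈ A) ∧ n ^ k = 1 ∧ ¬ p ∣ k ∧
    σ n * n⁻¹ ∈ A ∧ ∃ x ∈ A, n * x ^ (p ^ (c - 1)) ≠ x ^ (p ^ (c - 1)) * n

/-- The condition on simple groups, general form. -/
def Good5 (p : ℕ) (T : Type) [Group T] : Prop :=
  ∀ (σ : MulAut T) (N m : ℕ), σ ^ (p ^ N) = 1 → σ ^ (p ^ m) ≠ 1 →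
    Sec p m σ ∨
    (∃ (t : T) (c : ℕ), m + 1 ≤ c ∧ Cyc p c (MulAut.conj t * σ) ∧
      ∀ d : ℕ, GLaw T d → (∀ t : T, SL (MulAut.conj t * σ) d) → p ^ (m + 1) ∣ ed d) ∨
    (∀ b : ℕ, Wr p σ b m) ∨
    ((∃ t : T, ∀ b : ℕ, 1 ≤ b → Wr p (MulAut.conj t * σ) b m) ∧
      ∀ d : ℕ, GLaw T d → (∀ t : T, SL (MulAut.conj t * σ) d) → p ^ (m + 1) ∣ ed d)

/-- Row CP5 (copy of `CP4`, about 15 new lines). The only change: in the fourth case with `b ≥ 1`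
use CHG with `y₁ = y * t⁻¹` (conjugation by `(y₁ ^ k)⁻¹` on `S` is `conj t * α`), PRD for `y₁` and
`hL.sl y₁`, as in the cyclic case. -/
def CP5Stmt : Prop :=
  ∀ (p : ℕ) (T : Type) [Group T] [Finite T], p.Prime → Good5 p T → CompProp p T

/-- Row GRL (about 60 new lines in a copy of `H89/ENR/GRB.lean`): GRB with `τ` acting on `e(R)` as
multiplication by `lam ≡ 1 mod p`. Changes: `N = {x ∈ B | ∀ i, x i ∈ e(R)} ≃ (Fin k → R)` by the
values at `0, .., k-1` (`x (i + k) = lam • x i`; `R`-linear); `v` = the constant sequence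
`e (p ^ (c-1))` (`lam * p ^ (c-1) = p ^ (c-1)` in `R`); `(τ ^ M) n = e (u * ∑_{i<M} lam ^ i) n`,
`(τ ^ M) (e y) = e (lam ^ M * y)`, `τ ^ (p ^ c) = 1` because `p ^ c ∣ lam ^ (p ^ c) - 1` and
`p ^ c ∣ ∑_{i < p ^ c} lam ^ i`. Fixed points: at `i = 0` with `M₁ = p ^ (c-1) * M`, `p ∤ M`:
`(lam ^ M₁ - 1) y + u * ∑_{i<M₁} lam ^ i = 0` in `R`; `p ^ c ∣ lam ^ M₁ - 1`, and
`∑_{i<M₁} lam ^ i = p ^ (c-1) * w` with `p ∤ w` (integers; `NUM` says that `p ^ c` does not divide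
the sum, and `p ^ (c-1)` does), so it is `p ^ (c-1)` times a unit in `R`, not `0`. -/
def GRLStmt : Prop :=
  ∀ (P : Type) [Group P] (R : Type) [CommRing R] (p r b c lam : ℕ) (e : Multiplicative R →* P)
    (ζ u : R) (n : P) (τ : MulAut P), p.Prime → p ≠ 2 → r.Prime → r ≠ p → 1 ≤ b → 1 ≤ c →
    GRing R p c → Function.Injective e →
    (∀ x : P, ∃ (y : R) (i : ℕ), x = e (Multiplicative.ofAdd y) * n ^ i) → n ^ r = 1 →
    (∀ y : R, n * e (Multiplicative.ofAdd y) * n⁻¹ = e (Multiplicative.ofAdd (ζ * y))) →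
    lam ≡ 1 [MOD p] →
    (∀ y : R, τ (e (Multiplicative.ofAdd y)) = e (Multiplicative.ofAdd ((lam : R) * y))) →
    τ n = e (Multiplicative.ofAdd u) * n → IsUnit u →
    ∀ d : ℕ, SL (tsh τ (p ^ b)) d → p ^ (b + c) ∣ d

/-- Row GSL (about 250 lines; needs QTL, GRL, MOD; model `H14/ENR/GSE.lean`). Proof. Write `A`
additively, `α` = conjugation by `n` on `A`, `α ^ k = 1`. `C = {y ∈ A | α y = y}`,
`A₁ = {α y - y | y ∈ A}`; since `p ∤ k`: `C ∩ A₁ = 0`, `A = C + A₁` (for `y ∈ A`,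
`∑_{i<k} α ^ i y ∈ C` and `k y - ∑_{i<k} α ^ i y ∈ A₁`; `k` is invertible on `A`), and
`y ↦ α y - y` is bijective on `A₁`. `x = x₀ + x₁`: `α` moves `p ^ (c-1) x₁`, so `p ^ (c-1) x₁ ≠ 0` and
some multiple `z = p ^ i x₁ ∈ A₁` has order exactly `p ^ c`; `α (p ^ (c-1) z) ≠ p ^ (c-1) z`.
`a = σ(n) n⁻¹ = a₀ + a₁`. Choose `t ∈ A₁` with `t - α t = z - a₁`. `σ' = conj t * σ` is the same
power map on `A`, and `σ'(n) = (t + a - α t) n = (a₀ + z) n`. MOD for `A, α, z` (`m = k`): `R, N, π,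
ζ`, `π z = 1`, `ζ - 1` a unit. If `y ∈ N ∩ C` then `(ζ - 1) π y = 0`, so `π y = 0`; so `π` extends
to `N' = N + C` by `0` on `C`. Let `o > 1` be the order of `ζ`, `r` a prime divisor (`r ≠ p` since
`o ∣ k`), `n₁ = n ^ (o / r)`, `ζ₁ = ζ ^ (o / r)`; `ζ₁ - 1` is a unit (see GSE).
`σ'(n ^ i) = (∑_{l<i} α ^ l (a₀ + z)) n ^ i`, and `π` of the sum is `∑_{l<i} ζ ^ l`; so
`σ'(n₁) = a' n₁` with `u = π a' = ∑_{l < o/r} ζ ^ l`, a unit because `(ζ - 1) u = ζ₁ - 1`; and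
`π` of `σ'(n₁ ^ r) n₁ ^ (-r)` is `∑_{l<o} ζ ^ l = 0` (`(ζ - 1)` times it is `0`). `Γ = N' <n₁>`,
`D' = (ker π on N') <n₁ ^ r>` normal in `Γ`, both `σ'`-invariant, `N' ∩ D' = ker π` (as in GSE),
`P = Γ ⧸ D'`, `e : Multiplicative R →* P`, `τ` induced by `σ'`, `τ (e y) = e (lam y)`.
`lam ≡ 1 mod p`: `σ` has `p`-power order and `A` has an element of order `p`, so
`lam ^ (p ^ N) ≡ 1 mod p` and Fermat. QTL and GRL. -/
def GSLStmt : Prop :=
  ∀ (T : Type) [Group T] [Finite T] (p c N : ℕ) (σ : MulAut T), p.Prime → p ≠ 2 → 1 ≤ c →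
    σ ^ (p ^ N) = 1 → Gal p c σ →
    ∃ t : T, ∀ b : ℕ, 1 ≤ b → ∀ d : ℕ, SL (tsh (MulAut.conj t * σ) (p ^ b)) d → p ^ (b + c) ∣ d

/-- Row GSA (about 130 lines; needs FXY (part 2), BTR). Proof: `σ ^ (p ^ N) = 1`; FXY with `r = p`
(the number of Sylow `p`-subgroups is `≡ 1 mod p`) gives a `σ`-invariant Sylow subgroup `P`;
by hypothesis `σ x = x ^ lam` on `P` and some `x ∈ P` has `z = x ^ (p ^ m) ≠ 1`. BTR: `h`
normalises `P` and does not commute with `z`. `X = {y | y normalises P and y s y⁻¹ = h s h⁻¹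
for all s ∈ P}` is `h C(P)`; `σ` preserves `X` (`σ y` conjugates `s ^ lam` to `(h s h⁻¹) ^ lam`,
and `s ↦ s ^ lam` is bijective on `P`), and `X P = X`. The set of the cosets `y P`, `y ∈ X`, has
`card (C(P)) / card P` elements (`P ≤ C(P)`), prime to `p` (`P` is Sylow), and `σ` permutes it with
`p`-power order, so there is `y ∈ X` with `σ y ∈ y P = P y`
(`Equiv.Perm.exists_fixed_point_of_prime`; compare row FXC `H49/ENR/FXC.lean`). Let the order of `y`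
be `p ^ i * k`, `p ∤ k`, and `w ≡ 1 mod k`, `w ≡ 0 mod p ^ i`: `n = y ^ w`, `n ^ k = 1`; `y ^ (w-1)`
is a `p`-element of the normaliser of `P`, so it is in `P` (unique Sylow subgroup of the
normaliser); so `n ∈ y P` acts on `P` as `h`, and `σ n ∈ P n`. -/
def GSAStmt : Prop :=
  ∀ (T : Type) [Group T] [Finite T] (p N m : ℕ) [Fact p.Prime] (σ : MulAut T), IsSimpleGroup T →
    (¬ ∀ a c : T, a * c = c * a) → (∀ P : Sylow p T, ∀ x ∈ P, ∀ y ∈ P, x * y = y * x) →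
    σ ^ (p ^ N) = 1 →
    (∀ P : Sylow p T, (∀ x, x ∈ P ↔ σ x ∈ P) →
      (∃ lam : ℕ, ∀ x ∈ P, σ x = x ^ lam) ∧ ∃ x ∈ P, x ^ (p ^ m) ≠ 1) →
    Gal p (m + 1) σ

end Pool.ENR
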