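import Pool.Agent.H29.ENR.Stmts

/-!
# Board enr, part 6: all finite groups

`g ^ (e d)` normalises every simple factor of every nonabelian chief factor, and its `p`-part
centralises every chief factor of order prime to `p`.
-/

set_option autoImplicit false

namespace Pool.ENR

open Pool.Agent.H81.ENG

/-- Row PB1 (about 70 lines). Proof: let `R₀` be a Sylow `r`-subgroup; `α R₀ = g R₀ g⁻¹` for some
`g ∈ T` (Sylow), so `β = conj g⁻¹ * α` preserves `R₀`. `MulAut T` is finite; let the order of `β`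
be `p ^ s * u`, `p ∤ u`, and `w ≡ 1 mod p ^ N`, `w ≡ 0 mod u` (Chinese remainder,
`Nat.chineseRemainder`). By induction `β ^ i = conj (g i) * α ^ i` for some `g i ∈ T`; so
`β ^ w = conj t * α` (as `α ^ w = α`), `(β ^ w) ^ (p ^ s) = 1`, and `β ^ w` preserves `R₀`. -/
def PB1Stmt : Prop :=
  ∀ (T : Type) [Group T] [Finite T] (p r N : ℕ) [Fact r.Prime] (α : MulAut T), p.Prime → r ≠ p →
    α ^ (p ^ N) = 1 → ∃ (t : T) (R : Sylow r T) (M : ℕ),
      (∀ x, x ∈ R ↔ (MulAut.conj t * α) x ∈ R) ∧ (MulAut.conj t * α) ^ (p ^ M) = 1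

/-- Row PB2 (about 60 lines; model: row TRV, `H3/ENR/TRV.lean`). Proof: `b = 0` is trivial. Let
`1 ≤ b`, `B` the subgroup of the `η ∈ TSq α (p ^ b)` with values in `R`, of order
`(card R) ^ (p ^ b)` (prime to `p`), `S` the restriction of the shift, `S ^ (p ^ (b + N)) = 1`. If
`p ^ b ∤ ed d` then `coprime_fix` (`v = b - 1`) gives `S ^ (p ^ (b-1)) = 1`; but the sequence with
value `x ≠ 1` at `0` and `1` at `1, .., p ^ b - 1` is moved by it. -/
def PB2Stmt : Prop :=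
  ∀ (T : Type) [Group T] [Finite T] (p b N : ℕ) (α : MulAut T) (R : Subgroup T), p.Prime →
    (∀ x, x ∈ R ↔ α x ∈ R) → R ≠ ⊥ → ¬ p ∣ Nat.card R → α ^ (p ^ N) = 1 →
    ∀ d : ℕ, SL (tsh α (p ^ b)) d → p ^ b ∣ ed d

/-- Row PB3 (about 100 lines; needs PRD, CHG, PB1, PB2; model: `H88/ENR/CPC.lean`). Proof: `b`
minimal with `y ^ (p ^ b)` in the normaliser of `S`, `k = p ^ b` (no `y ^ i`, `0 < i < k`,
normalises `S`). Suppose `v < b`. `α` = conjugation by `(y ^ k)⁻¹` on `S`. `S` is not a `p`-group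
(simple nonabelian): take a prime `r ≠ p` dividing `card S`; PB1: `t ∈ S`, `R`, with
`α' = conj t * α` preserving `R` and of `p`-power order. CHG with `y₁ = y * t⁻¹`: conjugation by
`(y₁ ^ k)⁻¹` on `S` is `α'`; PRD for `y₁` and `hL.sl y₁` give `SL (tsh α' k) d`; PB2: `p ^ b ∣ ed d`,
and `v + 1 ≤ b`: contradiction. So `b ≤ v` and `y ^ (p ^ v)` is a power of `y ^ (p ^ b)`. -/
def PB3Stmt : Prop :=
  ∀ (G : Type) [Group G] [Finite G] (p N v d : ℕ) (S : Subgroup G) (y : G), p.Prime →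
    y ^ (p ^ N) = 1 → IsSimpleGroup S → (¬ ∀ a ∈ S, ∀ b ∈ S, a * b = b * a) → Dich S →
    GLaw G d → ¬ p ^ (v + 1) ∣ ed d → ∀ t, t ∈ S ↔ y ^ (p ^ v) * t * (y ^ (p ^ v))⁻¹ ∈ S

/-- Row PB4 (about 90 lines; needs PB3). Proof. `Dich S`: for `g ∈ G` the subgroup `S' = g S g⁻¹` is
normalised by `M` (`M` is normal) and simple, so `S ⊓ S'` is normal in `S` and in `S'`; it is `⊥` or
equal to both (orders), and if it is `⊥` then `S, S'` commute elementwise (both are normalised by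
`M`, which contains them). Then as `p_part_aux` in `H81/ENG/Final.lean`: for every prime `p` there
is `n`, `p ∤ n`, with `g ^ (ed d * n)` in the normaliser of `S` (`y = g ^ w`, `w` the `p'`-part of
the order), and as `q1_of_p_parts` with `Fit G` replaced by the normaliser (`exists_min_exp` holds
for any subgroup): `g ^ (ed d)` normalises `S`. -/
def PB4Stmt : Prop :=
  ∀ (G : Type) [Group G] [Finite G] (d : ℕ) (M S : Subgroup G), M.Normal → S ≤ M →
    (∀ m ∈ M, ∀ s ∈ S, m * s * m⁻¹ ∈ S) → IsSimpleGroup S →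
    (¬ ∀ a ∈ S, ∀ b ∈ S, a * b = b * a) → GLaw G d →
    ∀ g : G, ∀ t, t ∈ S ↔ g ^ (ed d) * t * (g ^ (ed d))⁻¹ ∈ S

/-- Row PB5 (about 40 lines). Proof: `coprime_case` (`H81/ENG/Main.lean`) and the argument of
`p_part_aux` (`H81/ENG/Final.lean`). -/
def PB5Stmt : Prop :=
  ∀ (G : Type) [Group G] [Finite G] (d p : ℕ) (M : Subgroup G), M.Normal → p.Prime →
    ¬ p ∣ Nat.card M → GLaw G d →
    ∀ g : G, ∃ n : ℕ, ¬ p ∣ n ∧ ∀ m ∈ M, g ^ (ed d * n) * m = m * g ^ (ed d * n)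

end Pool.ENR
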