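import Pool.Agent.H29.ENR.Stmts10
import Pool.Agent.H29.ENR.Stmts6
import Pool.Agent.H14.ENR.Stmts4

/-!
# Board enr: assembly from the statements
-/

set_option autoImplicit false
set_option linter.style.haveILetI false

namespace Pool.ENR

open Pool.Agent.H81.ENG Pool.Agent.H55.NEU

/-- The Sylow `p`-subgroups of `T` are abelian, `σ` acts as a power map on those which it
normalises, and they contain elements of order greater than `p ^ m`. -/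
def AbP (p m : ℕ) {T : Type} [Group T] (σ : MulAut T) : Prop :=
  (∀ P : Sylow p T, ∀ x ∈ P, ∀ y ∈ P, x * y = y * x) ∧
    ∀ P : Sylow p T, (∀ x, x ∈ P ↔ σ x ∈ P) →
      (∃ lam : ℕ, ∀ x ∈ P, σ x = x ^ lam) ∧ ∃ x ∈ P, x ^ (p ^ m) ≠ 1

/-- Some element of order prime to `p` normalises a Sylow `p`-subgroup and does not centralise
it. -/
def NSyl (p : ℕ) (T : Type) [Group T] : Prop :=
  ∃ (P : Sylow p T) (n : T) (k : ℕ), n ^ k = 1 ∧ ¬ p ∣ k ∧
    (∀ x, x ∈ P ↔ n * x * n⁻¹ ∈ P) ∧ ∃ x ∈ P, n * x ≠ x * n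

/-- The reduction condition. -/
def Red (p : ℕ) (T : Type) [Group T] : Prop :=
  ∀ (σ : MulAut T) (N m : ℕ), σ ^ (p ^ N) = 1 → σ ^ (p ^ m) ≠ 1 →
    Sec p m σ ∨ (p = 2 ∧ σ ^ 2 = 1) ∨
    ((∀ d : ℕ, GLaw (ASg σ) d → p ^ (m + 1) ∣ ed d) ∧
      ((∃ (t : T) (M : ℕ), (MulAut.conj t * σ) ^ (p ^ M) = 1 ∧ Sec p m (MulAut.conj t * σ)) ∨
        (p ≠ 2 ∧ (Gal2 p (m + 1) σ ∨ AbP p m σ ∨
          (m = 0 ∧ ((∃ s : T, σ = MulAut.conj s) ∨ NSyl p T)))) ∨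
        ∃ t : T, ∀ b : ℕ, 1 ≤ b → Wr p (MulAut.conj t * σ) b m))

/-- The condition on the field. -/
def Fld (p : ℕ) (F : Type) [Field F] : Prop :=
  4 ≤ Nat.card F ∧ (p = 2 → ringChar F = 2 ∨ ringChar F % 4 = 1 ∨ Nat.card F % 8 = 3)

/-- The admissible simple groups at `p`. -/
def Adm (p : ℕ) (T : Type) [Group T] : Prop :=
  (∃ n : ℕ, 5 ≤ n ∧ (p = 2 → n ≠ 6) ∧ Nonempty (T ≃* alternatingGroup (Fin n))) ∨
  (∃ (F : Type) (_ : Field F) (_ : Finite F), Fld p F ∧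
    Nonempty (T ≃* Matrix.ProjectiveSpecialLinearGroup (Fin 2) F)) ∨
  Red p T

theorem Good4.good6 (hAS1 : AS1Stmt) {p : ℕ} {T : Type} [Group T]
    (hc : ∀ t : T, MulAut.conj t = 1 → t = 1) (h : Good4 p T) : Good6 p T := by
  intro σ N m h1 h2
  rcases h σ N m h1 h2 with h3 | ⟨t, c, h4, h5, h6⟩ | h3 | ⟨h3, h4⟩
  · exact Or.inl h3
  · exact Or.inr (Or.inl ⟨t, c, h4, h5, fun d hd =>
      h6 d (hAS1 T σ hc d hd).1 (hAS1 T σ hc d hd).2⟩)
  · exact Or.inr (Or.inr (Or.inl h3))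
  · refine Or.inr (Or.inr (Or.inr ⟨⟨1, fun b _ => ?_⟩, fun d hd =>
      h4 d (hAS1 T σ hc d hd).1 (hAS1 T σ hc d hd).2⟩))
    rw [map_one, one_mul]
    exact h3 b (by assumption)

theorem Good.good4 {p : ℕ} {T : Type} [Group T] (h : Good p T) : Good4 p T := by
  intro σ N m h1 h2
  rcases h σ N m h1 h2 with h3 | ⟨t, c, h4, h5, h6⟩ | h3
  · exact Or.inl h3
  · exact Or.inr (Or.inl ⟨t, c, h4, h5, fun d hd _ => h6 d hd⟩)
  · exact Or.inr (Or.inr (Or.inl h3))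

/-- The conclusion of `Good6`. -/
def Good6Concl (p : ℕ) (T : Type) [Group T] (σ : MulAut T) (m : ℕ) : Prop :=
    Sec p m σ ∨
    (∃ (t : T) (c : ℕ), m + 1 ≤ c ∧ Cyc p c (MulAut.conj t * σ) ∧
      ∀ d : ℕ, GLaw (ASg σ) d → p ^ (m + 1) ∣ ed d) ∨
    (∀ b : ℕ, Wr p σ b m) ∨
    ((∃ t : T, ∀ b : ℕ, 1 ≤ b → Wr p (MulAut.conj t * σ) b m) ∧
      ∀ d : ℕ, GLaw (ASg σ) d → p ^ (m + 1) ∣ ed d)

theorem Red.good6 (hSEC : SECStmt) (hGSL : GSLStmt) (hGSA : GSAStmt) (hINV : INVStmt)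
    (hGSX : GSXStmt) (hINN : INNStmt) (hOUT : OUTStmt) {p : ℕ} (hp : p.Prime)
    {T : Type} [Group T] [Finite T] (hs : IsSimpleGroup T) (hn : ¬ ∀ a c : T, a * c = c * a)
    (h : Red p T) : Good6 p T := by
  haveI : Fact p.Prime := ⟨hp⟩
  intro σ N m h1 h2
  rcases h σ N m h1 h2 with h3 | ⟨h3, h4⟩ | ⟨h4, ⟨t, M, h5, h6⟩ | ⟨hp2, h3⟩ | h3⟩
  · exact Or.inl h3
  · subst h3
    have hm : m = 0 := by
      by_contra hm
      apply h2
      obtain ⟨k, rfl⟩ := Nat.exists_eq_succ_of_ne_zero hm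
      rw [Nat.succ_eq_add_one, pow_succ', pow_mul, h4, one_pow]
    subst hm
    refine Or.inl (hINV T σ hs hn h4 ?_)
    intro h5
    apply h2
    rw [h5, one_pow]
  · exact Or.inr (Or.inr (Or.inr ⟨⟨t, fun b _ => hSEC T p m M _ hp h5 h6 b⟩, h4⟩))
  · have hgal : Gal2 p (m + 1) σ → Good6Concl p T σ m := by
      intro hG
      obtain ⟨t, ht⟩ := hGSX T p (m + 1) σ hp hp2 (by omega) hG
      refine Or.inr (Or.inr (Or.inr ⟨⟨t, ?_⟩, h4⟩))
      intro b hb d hL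
      exact dvd_trans (ht b hb d hL) (dvd_ed d)
    rcases h3 with h3 | h3 | ⟨hm, h3 | h3⟩
    · exact hgal h3
    · have hG : Gal p (m + 1) σ := hGSA T p N m σ hs hn h3.1 h1 h3.2
      obtain ⟨t, ht⟩ := hGSL T p (m + 1) N σ hp hp2 (by omega) h1 hG
      refine Or.inr (Or.inr (Or.inr ⟨⟨t, ?_⟩, h4⟩))
      intro b hb d hL
      exact dvd_trans (ht b hb d hL) (dvd_ed d)
    · obtain ⟨s, rfl⟩ := h3
      subst hm
      exact hgal (hINN T p N s hs hn (by simpa using h2) h1)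
    · subst hm
      rcases hOUT T p N σ h1 h3 (by simpa using h2) with h5 | h5
      · exact Or.inl h5
      · exact hgal h5
  · exact Or.inr (Or.inr (Or.inr ⟨h3, h4⟩))

theorem CompProp.iso {p : ℕ} {T T' : Type} [Group T] [Group T'] (e : T ≃* T')
    (h : CompProp p T') : CompProp p T := by
  intro G _ _ S f y N d v h1 h2 h3 h4 h5 h6
  exact h G S (f.trans e) y N d v h1 h2 h3 h4 h5 h6

theorem centerless {T : Type} [Group T] (hs : IsSimpleGroup T) (hn : ¬ ∀ a c : T, a * c = c * a) :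
    ∀ t : T, MulAut.conj t = 1 → t = 1 := by
  intro t ht
  have h1 : t ∈ Subgroup.center T := by
    rw [Subgroup.mem_center_iff]
    intro g
    have h2 := congrArg (fun f : MulAut T => f g) ht
    have h3 : t * g * t⁻¹ = g := h2
    calc g * t = (t * g * t⁻¹) * t := by rw [h3]
      _ = t * g := by group
  rcases hs.eq_bot_or_eq_top_of_normal (Subgroup.center T) inferInstance with h2 | h2
  · rw [h2, Subgroup.mem_bot] at h1
    exact h1
  · exfalso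
    apply hn
    intro a c
    have h3 : c ∈ Subgroup.center T := by rw [h2]; exact Subgroup.mem_top _
    rw [Subgroup.mem_center_iff] at h3
    exact h3 a

theorem Adm.comp (hSEC : SECStmt) (hCAL : CALStmt) (hCP6 : CP6Stmt) (hAS1 : AS1Stmt) (hGPS : GPSStmt)
    (hGP4 : GP4Stmt) (hQ3P : Q3PStmt) (hGSL : GSLStmt) (hGSA : GSAStmt) (hINV : INVStmt)
    (hGSX : GSXStmt) (hINN : INNStmt) (hOUT : OUTStmt) {p : ℕ} (hp : p.Prime)
    {T : Type} [Group T] [Finite T] (hs : IsSimpleGroup T) (hn : ¬ ∀ a c : T, a * c = c * a)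
    (h : Adm p T) : CompProp p T := by
  rcases h with ⟨n, h5, h6, ⟨e⟩⟩ | ⟨F, hF, hFf, ⟨h4, h2⟩, ⟨e⟩⟩ | h
  · exact (hCAL p n hp h5 h6).iso e
  · refine CompProp.iso e ?_
    haveI : Finite (PS F) := Finite.of_equiv T e.toEquiv
    have hs' : IsSimpleGroup (PS F) := e.symm.isSimpleGroup
    have hn' : ¬ ∀ a c : PS F, a * c = c * a := by
      intro hab
      apply hn
      intro a c
      apply e.injective
      rw [map_mul, map_mul]
      exact hab _ _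
    refine hCP6 p (PS F) hp (Good4.good6 hAS1 (centerless hs' hn') ?_)
    by_cases hp2 : p = 2
    · subst hp2
      rcases h2 rfl with h7 | h7 | h7
      · refine (hGPS F 2 Nat.prime_two h4 (Or.inr ?_)).good4
        have := ringChar.spec F 2
        rw [h7] at this
        exact_mod_cast this.mpr dvd_rfl
      · haveI : CharP F (ringChar F) := ringChar.charP F
        haveI : Fact (ringChar F).Prime := ⟨CharP.char_is_prime F (ringChar F)⟩
        haveI : Fintype F := Fintype.ofFinite F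
        obtain ⟨n, hpr, hc⟩ := FiniteField.card F (ringChar F)
        refine (hGP4 F (ringChar F) n h7 n.pos ?_ hs').good4
        rw [Nat.card_eq_fintype_card, hc]
      · refine hQ3P F h7 ?_ hs' hn'
        omega
    · exact (hGPS F p hp h4 (Or.inl hp2)).good4
  · exact hCP6 p T hp (Red.good6 hSEC hGSL hGSA hINV hGSX hINN hOUT hp hs hn h)

/-- Every composition factor of order divisible by `p` is abelian or admissible. -/
def AFac (G : Type) [Group G] (p : ℕ) : Prop :=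
  ∀ H : Subgroup G, H.IsSubnormal → ∀ (K : Subgroup H) (_ : K.Normal), IsSimpleGroup (H ⧸ K) →
    p ∣ Nat.card (H ⧸ K) → (∀ a b : H ⧸ K, a * b = b * a) ∨ Adm p (H ⧸ K)

theorem main_class (hPIG : PIGStmt) (hSEC : SECStmt) (hCAL : CALStmt) (hCP6 : CP6Stmt) (hAS1 : AS1Stmt)
    (hGPS : GPSStmt) (hGP4 : GP4Stmt) (hQ3P : Q3PStmt) (hGSL : GSLStmt) (hGSA : GSAStmt)
    (hINV : INVStmt) (hGSX : GSXStmt) (hINN : INNStmt) (hOUT : OUTStmt)
    (G : Type) [Group G] [Finite G] (π : Set ℕ) (hπ : ∀ p ∈ π, p.Prime ∧ AFac G p) (d : ℕ)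
    (hd : GLaw G d) :
    ∃ n : ℕ, 0 < n ∧ (∀ p ∈ π, ¬ p ∣ n) ∧ ∀ g : G, g ^ (ed d * n) ∈ Fit G := by
  refine hPIG G π (fun p hp => ⟨(hπ p hp).1, ?_⟩) d hd
  intro H hH K hK hs hpd
  by_cases hab : ∀ a b : H ⧸ K, a * b = b * a
  · exact Or.inl hab
  · rcases (hπ p hp).2 H hH K hK hs hpd with h1 | h1
    · exact absurd h1 hab
    · exact Or.inr (Adm.comp hSEC hCAL hCP6 hAS1 hGPS hGP4 hQ3P hGSL hGSA hINV hGSX hINN hOUT
        (hπ p hp).1 hs hab h1)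

theorem main_all (hPB4 : PB4Stmt) (hPB5 : PB5Stmt) (G : Type) [Group G] [Finite G] (d : ℕ)
    (hd : GLaw G d) (K : Subgroup G) [K.Normal] (M : Subgroup (G ⧸ K)) (hM : M.Normal) (g : G) :
    (∀ S : Subgroup (G ⧸ K), S ≤ M → (∀ m ∈ M, ∀ s ∈ S, m * s * m⁻¹ ∈ S) → IsSimpleGroup S →
      (¬ ∀ a ∈ S, ∀ b ∈ S, a * b = b * a) →
      ∀ t, t ∈ S ↔ (g : G ⧸ K) ^ (ed d) * t * ((g : G ⧸ K) ^ (ed d))⁻¹ ∈ S) ∧
    ∀ p : ℕ, p.Prime → ¬ p ∣ Nat.card M → ∃ n : ℕ, ¬ p ∣ n ∧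
      ∀ m ∈ M, (g : G ⧸ K) ^ (ed d * n) * m = m * (g : G ⧸ K) ^ (ed d * n) :=
  ⟨fun S h1 h2 h3 h4 => hPB4 (G ⧸ K) d M S hM h1 h2 h3 h4 (hd.quotient K) g,
    fun p hp hpM => hPB5 (G ⧸ K) d p M hM hp hpM (hd.quotient K) g⟩

end Pool.ENR
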