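import Pool.Agent.H29.ENR.Stmts3
import Pool.Agent.H36.ENR.Stmts2

/-!
# Board enr, part 5: `p = 2` and `PSL(2,q)`, `q ≡ 3 mod 8`

The figure-eight relation `[x,y,y] = x^y` (found by helper48), the base theorem of type `A₄`, and
the conjugations by `1 + I`, `I² = -1`.
-/

set_option autoImplicit false

namespace Pool.ENR

open Pool.Agent.H81.ENG Pool.Agent.H55.NEU

/-- `σ` is the conjugation by the (invertible) matrix `M`. -/
def CM (F : Type) [Field F] (M : Matrix (Fin 2) (Fin 2) F) (σ : MulAut (PS F)) : Prop :=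
  ∀ X X' : SL2 F, (X' : Matrix (Fin 2) (Fin 2) F) * M = M * (X : Matrix (Fin 2) (Fin 2) F) →
    σ (pr X) = pr X'

/-- The condition on simple groups; the laws of all automorphisms `conj t * σ` may be used. -/
def Good4 (p : ℕ) (T : Type) [Group T] : Prop :=
  ∀ (σ : MulAut T) (N m : ℕ), σ ^ (p ^ N) = 1 → σ ^ (p ^ m) ≠ 1 →
    Sec p m σ ∨
    (∃ (t : T) (c : ℕ), m + 1 ≤ c ∧ Cyc p c (MulAut.conj t * σ) ∧
      ∀ d : ℕ, GLaw T d → (∀ t : T, SL (MulAut.conj t * σ) d) → p ^ (m + 1) ∣ ed d) ∨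
    (∀ b : ℕ, Wr p σ b m) ∨
    ((∀ b : ℕ, 1 ≤ b → Wr p σ b m) ∧
      ∀ d : ℕ, GLaw T d → (∀ t : T, SL (MulAut.conj t * σ) d) → p ^ (m + 1) ∣ ed d)

/-- Row CP4 (copy of `H44/ENR/CP3.lean`, about 20 new lines). The only change: in the case `b = 0`
(`k = 1`, `α` = conjugation by `y⁻¹` on `S`) one has `SL (conj t * α) d` for every `t ∈ S`: it is
the conjugation by `(y * t⁻¹)⁻¹ = t * y⁻¹` restricted to `S` (`hL.sl (y * t⁻¹)` and `SL.of_inj`
with `S.subtype`; see also CHG with `k = 1`). -/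
def CP4Stmt : Prop :=
  ∀ (p : ℕ) (T : Type) [Group T] [Finite T], p.Prime → Good4 p T → CompProp p T

/-- Row Q3U (about 170 lines; model: row CYB `H14/ENR/CYB.lean` and `unip` of
`H81/ENG/Unip.lean`). The base theorem of type `A₄`. Proof. `k = 2 ^ b`, `B = TSq τ k`,
`S = tsh τ k`, `N = {x ∈ B | ∀ i, x i ∈ V}` (normal, abelian, exponent 2; a sequence is determined
by its values at `0, .., k-1`, so `Nat.card N ≤ 4 ^ k = 2 ^ (2 ^ μ)`, `μ = b + 1`). The constant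
sequence `z` is in `B` (`τ z = z`) and `(S ^ (2 ^ μ)) x i = x (i + 2 k) = τ (τ (x i))
= z * x i * z⁻¹`, `z⁻¹ = z`. `θ : P → P ⧸ V`, generated by `θ n`; `θ (τ x) = (θ x)⁻¹`. `root_seq`
(`H81/ENG/Root.lean`, `p = 2`, `q = 3`, `μ = b + 1`, `2 < 2 ^ (b+1)`): `a : ℤ → ZMod 3`, `a 0 = 1`,
`a (i + k) = - a i` (as `2 * k = 2 ^ μ`), and `r > 0` with `(difference)^r a = shift a` or the same
with the inverse shift. Model sequence `ξ i = (τ ^ (i / k)) (n ^ (a (i % k)).val)`,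
`θ (ξ i) = pw (θ n) (a i)`; `rel_iter`, `rel_iter_inv` (`H81/ENG/BaseThm.lean`):
`(ef S)^[r] ξ * (S ξ)⁻¹ ∈ N`, or the same for `S⁻¹`. `z * ξ ≠ ξ * z` at `i = 0`, `ξ 0 = n`. Apply
`unip` to `S` (`hL.1`) or `S⁻¹` (`hL.2`). -/
def Q3UStmt : Prop :=
  ∀ (P : Type) [Group P] [Finite P] (V : Subgroup P) [V.Normal] (z n : P) (τ : MulAut P) (b : ℕ),
    1 ≤ b → (∀ x ∈ V, ∀ y ∈ V, x * y = y * x) → (∀ x ∈ V, x ^ 2 = 1) → Nat.card V ≤ 4 →
    n ^ 3 = 1 → (∀ x : P, ∃ v ∈ V, ∃ i : ℕ, x = v * n ^ i) → (∀ x, x ∈ V → τ x ∈ V) →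
    (∃ v ∈ V, τ n = v * n⁻¹) → z ∈ V → τ z = z → (∀ x, τ (τ x) = z * x * z⁻¹) →
    z * n ≠ n * z → ∀ d : ℕ, SL (tsh τ (2 ^ b)) d → 2 ^ (b + 2) ∣ d

/-- Row Q3V (about 180 lines; needs Q3U, QTL). Proof. `I` is not scalar and `I² = -1`, so `I` has
trace `0` and determinant `1`. There is a basis `e, I e`, so `I = g [[0,-1],[1,0]] g⁻¹`; put
`J = g [[a,b],[b,-a]] g⁻¹` with `a² + b² = -1` (`exists_sum_sq`, Psl5): `J² = -1`, `I J = - J I`,
`K = I J`, `K² = -1`, `J K = I`, `K I = J`. All are in `SL2 F`. `N = (-1 + I + J + K) / 2`,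
determinant `1`, `N² + N + 1 = 0`, `N³ = 1`, `N I N⁻¹ = J` (or `K`). `V = {1, pr I, pr J, pr K}`,
`n = pr N`, `z = pr I`. `σ (pr I) = pr I`, `σ (pr J) = pr K`, `σ (pr K) = pr J`
(`(1+I) J = K (1+I)`, `(1+I) K = -J (1+I)`), `σ n = pr I * n⁻¹`
(`(1+I) N = N' (1+I)`, `N' = (-1 + I - J + K)/2 = - I N⁻¹`), `σ (σ x) = z x z⁻¹` (as
`(1+I)² = 2 I`). `Γ = {v n ^ i}` is a subgroup, invariant under `σ`; QTL with `P = Γ`, `π` the
identity; Q3U; `d ∣ ed d`. -/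
def Q3VStmt : Prop :=
  ∀ (F : Type) [Field F] [Finite F], (2 : F) ≠ 0 → ∀ (I : Matrix (Fin 2) (Fin 2) F)
    (σ : MulAut (PS F)), I * I = -1 → (∀ x : F, I ≠ x • (1 : Matrix (Fin 2) (Fin 2) F)) →
    CM F (1 + I) σ → ∀ b : ℕ, 1 ≤ b → Wr 2 σ b 1

/-- Row Q3A (about 150 lines). Proof: a ring automorphism of `F` of 2-power order is trivial
(otherwise some power has order 2, its fixed field `K` has `|F| = |K| ^ 2 ≡ 1 mod 8`), so
`fld σ = 1` and `σ = conj (pr g) * ee c 1` (`fld_spec`) is the conjugation by a matrix `M`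
(`M = g * diag(c, 1)`; `EE_apply`). `2` is not a square in `F` (`|F| ≡ 3 mod 8`;
`FiniteField.isSquare_two_iff`). Put `t = tr M`, `D = det M ≠ 0`. `σ ^ j` is trivial iff `M ^ j` is
scalar. Claim `M ^ 4` is scalar: otherwise let `j ≥ 3` be minimal with `M ^ (2 ^ j)` scalar and
`N' = M ^ (2 ^ (j - 2))`: `N' ^ 2` not scalar, `N' ^ 4` scalar; for a matrix with
`N'^2 = t' N' - D'`, `N' ^ 4` has `N'`-coefficient `t'^3 - 2 t' D'`, so `t' = 0` (then `N' ^ 2` is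
scalar) or `t'^2 = 2 D'`, and `D' = (det M) ^ (2 ^ (j-2))` is a nonzero square: `2` is a square,
contradiction. If `M ^ 2` is scalar, `σ ^ 2 = 1`. Otherwise `M ^ 4` scalar gives `t ≠ 0`,
`t ^ 2 = 2 D`; `I = (2 / t) M - 1` has `I ^ 2 = -1`, and `1 + I = (2 / t) M` gives the same
conjugation; `I` is not scalar because `M` is not. -/
def Q3AStmt : Prop :=
  ∀ (F : Type) [Field F] [Finite F], Nat.card F % 8 = 3 → ∀ (σ : MulAut (PS F)) (N : ℕ),
    σ ^ (2 ^ N) = 1 → σ ^ 2 = 1 ∨ (σ ^ 4 = 1 ∧ ∃ I : Matrix (Fin 2) (Fin 2) F, I * I = -1 ∧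
      (∀ x : F, I ≠ x • (1 : Matrix (Fin 2) (Fin 2) F)) ∧ CM F (1 + I) σ)

/-- Row Q3C (about 50 lines). Proof: `A = r⁻¹ • M' * M⁻¹` has determinant `1`; `t = pr A`:
`(conj t * σ) (pr X) = pr (A * Y * A⁻¹)` where `Y * M = M * X`. If `X' * M' = M' * X` then
`X' = M' X M'⁻¹ = A M X M⁻¹ A⁻¹`. -/
def Q3CStmt : Prop :=
  ∀ (F : Type) [Field F] (M M' : Matrix (Fin 2) (Fin 2) F) (r : F) (σ : MulAut (PS F)),
    M.det ≠ 0 → r ≠ 0 → M'.det = r * r * M.det → CM F M σ →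
    ∃ t : PS F, CM F M' (MulAut.conj t * σ)

/-- Row Q3G (about 200 lines): the figure-eight relation. `δ = v + 2`, `M = [[0,-δ],[1,δ]]`,
`s(X) = M X M⁻¹`, `f(X) = X⁻¹ s(X)`; `c = 2 - v ≠ 0` (`v = 2` would give `v + 2 = 4`, a square).
`B₁ = (-(1+c) + e) / (2c)`, `B = (-(1+c) - e) / (2c)`: `c B (1+B) = B₁`, `c B₁ (1+B₁) = B`,
`B B₁ = (1+c)/c² ≠ 0` (if `1 + c = 0` then `v = 3`, `e = 0`). There is `X = [[x,y],[z,w]] ∈ SL2 F`
with `x + w = 2 + c B₁` and `tr (X M) = y - δ z + δ w = δ`: with `x, y` eliminated the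
determinant condition is `w² - δ w z + δ z² - (2 + c B₁) w + δ z + 1 = 0`, a conic with
discriminant `δ² - 4 δ = δ (v - 2) ≠ 0`; complete the square and use
`FiniteField.exists_root_sum_quadratic`. RELATION (checked by computer in `F_11, .., F_83`):
`f (f X) = s(X)` exactly. Proof of the relation: over the algebraic closure `M` is conjugate to
`diag(l₁, l₂)` (`l₁ ≠ l₂`, eigenvalues; compare `comp_diag`, Psl4), `L = l₂ / l₁`,
`L + L⁻¹ = v`; in these coordinates `X = [[a,b],[c',d]]`; the two traces give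
`a = 1 + B₁ - B₁ L`, `d = 1 + B₁ - B₁ L⁻¹`, so `b c' = a d - 1 = B`;
`s(X) = [[a, b/L],[c' L, d]]`, `X₁ = f(X) = [[1 + B - B L, b d (L⁻¹ - 1)],
[a c' (L - 1), 1 + B - B L⁻¹]]`, and `f(X₁) = s(X)` follows by `field_simp`/`linear_combination`
from the equations for `B, B₁` (`d * d₁ * (L⁻¹ - 1)² = L⁻¹`, where `d₁ = 1 + B - B L⁻¹`). (Or directly
by polynomial identities in the entries.)
CONCLUSION: `x = pr X`, `(ef σ)^[2] x = σ x`. So (`ef_iter_mul`) `(ef σ)^[2 n] x = (σ ^ n) x`, `x` is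
periodic, `(ef σ)^[d] x = x` (`L.periodic`). For ODD `n`, `(σ ^ n) x ≠ x`: otherwise with
`x₁ = pr X₁`, `X₁ = X⁻¹ s(X)`, the lift satisfies `s^n(X) = ± X`, hence `s^n(X₁) = X₁` exactly,
`M ^ n` commutes with `X₁`; `M ^ n` is not scalar (its determinant `δ ^ n` is not a square), so `X₁`
is a polynomial in `M`, `s(X₁) = X₁`, `f(X₁) = 1`, `s(X) = 1`, `X = 1`, but `B ≠ 0`
(`X = 1` gives `2 = 2 + c B₁`). If `d` is odd then `(σ ^ d) x = (ef σ)^[2 d] x = x`, contradiction;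
if `d = 2 n` with `n` odd then `(σ ^ n) x = x`, contradiction. So `4 ∣ d`. -/
def Q3GStmt : Prop :=
  ∀ (F : Type) [Field F] [Finite F], (2 : F) ≠ 0 → ∀ (v e : F), ¬ IsSquare (v + 2) →
    (v - 3) * (v + 1) = e * e → e ≠ 0 → ∀ σ : MulAut (PS F), CM F !![0, -(v + 2); 1, v + 2] σ →
    ∀ d : ℕ, L σ d → 4 ∣ d

/-- Row Q3H (about 100 lines). Proof: `-1` and `2` are not squares (`|F| ≡ 3 mod 8`). (i) `-3` a
nonzero square: `v = 0`. (ii) `-3` not a square: `3 = s²`, `s ≠ 0`; `v = s` and `v = -s`: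
`v + 2 = (1 + v)² / 2`, and `1 + v ≠ 0` (`v = -1` gives `3 = 1`), so `v + 2` is not a square;
`(v - 3)(v + 1) = v² - 2 v - 3 = - 2 v`, and one of `- 2 s`, `2 s` is a square. (iii) `3 = 0`: then
`v + 2 = v - 1` and `(v - 3)(v + 1) = v (v + 1)`. Suppose there is no such `v`. Let `C =
{w, w+1, w+2}`, `w ∉ {0,1,2}`, contain a nonsquare; then the product of the other two elements
(cyclically `v - 1` nonsquare, `v`, `v + 1`) is not a square, so one of them is a square, the other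
not: `C` has exactly two nonsquares and one square. Then `-C` has exactly one nonsquare,
contradiction. So all elements outside `{0, 1, 2}` are squares; but `w` and `-w` are never both
squares for `w ≠ 0`, and `|F| ≥ 11` gives such a `w`. -/
def Q3HStmt : Prop :=
  ∀ (F : Type) [Field F] [Finite F], Nat.card F % 8 = 3 → 11 ≤ Nat.card F →
    ∃ v e : F, ¬ IsSquare (v + 2) ∧ (v - 3) * (v + 1) = e * e ∧ e ≠ 0

/-- Row Q3P (about 80 lines; needs INV, Q3A, Q3V, Q3C, Q3G, Q3H). Proof: Q3A. If `σ ^ 2 = 1` then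
`m = 0` and INV gives `Sec 2 0 σ`. Otherwise `σ ^ 4 = 1`, so `m ≤ 1`: fourth alternative. For
`b ≥ 1`: Q3V gives `2 ^ (b + 2) ∣ ed d` (so also `2 ^ (b + m + 1)`). The law: `v, e` of Q3H,
`M' = [[0,-(v+2)],[1,v+2]]`, `det M' = v + 2` is not a square, `det (1 + I) = 2` is not a square,
so `det M' = r² * 2`; Q3C gives `t` with `CM F M' (conj t * σ)`, and Q3G: `4 ∣ d`. -/
def Q3PStmt : Prop :=
  ∀ (F : Type) [Field F] [Finite F], Nat.card F % 8 = 3 → 11 ≤ Nat.card F →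
    IsSimpleGroup (PS F) → (¬ ∀ a c : PS F, a * c = c * a) → Good4 2 (PS F)

end Pool.ENR
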