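import Pool.Agent.H29.ENR.Stmts8
import Pool.Agent.H29.ENR.Stmts6
import Pool.Agent.H29.ENR.Stmts5
import Pool.Agent.H14.ENR.Stmts4

/-!
# Board enr, part 11: the squared bound

If Q1 holds at `p` for all groups `T⟨σ⟩` then the `p`-part of the exponent of `G / F(G)` divides
`(e d)²`; the groups `PSL(2,q)`, `q` odd, at `p = 2`.
-/

set_option autoImplicit false

namespace Pool.ENR

open Pool.Agent.H81.ENG Pool.Agent.H55.NEU

/-- As `CompProp`, with `y ^ (p ^ (2 * v))`. -/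
def CompProp2 (p : ℕ) (T : Type) [Group T] : Prop :=
  ∀ (G : Type) [Group G] [Finite G] (S : Subgroup G) (_ : S ≃* T) (y : G) (N d v : ℕ),
    y ^ (p ^ N) = 1 → IsSimpleGroup S → (¬ ∀ a ∈ S, ∀ b ∈ S, a * b = b * a) → Dich S →
    GLaw G d → ¬ p ^ (v + 1) ∣ ed d → ∀ t ∈ S, y ^ (p ^ (2 * v)) * t = t * y ^ (p ^ (2 * v))

/-- As `CFactors`, with `CompProp2`. -/
def CFactors2 (G : Type) [Group G] (p : ℕ) : Prop :=
  ∀ H : Subgroup G, H.IsSubnormal → ∀ (K : Subgroup H) (_ : K.Normal), IsSimpleGroup (H ⧸ K) →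
    p ∣ Nat.card (H ⧸ K) → (∀ a b : H ⧸ K, a * b = b * a) ∨ CompProp2 p (H ⧸ K)

/-- The condition on simple groups for the squared bound. -/
def Sq (p : ℕ) (T : Type) [Group T] : Prop :=
  ∀ (σ : MulAut T) (N m : ℕ), σ ^ (p ^ N) = 1 → σ ^ (p ^ m) ≠ 1 →
    (∀ d : ℕ, GLaw (ASg σ) d → p ^ (m + 1) ∣ ed d) ∨
    ((∀ d : ℕ, GLaw (ASg σ) d → p ^ m ∣ ed d ∧ p ∣ ed d) ∧
      ∃ t : T, ∀ b : ℕ, 1 ≤ b → ∀ d : ℕ, SL (tsh (MulAut.conj t * σ) (p ^ b)) d →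
        p ^ (b + 1) ∣ ed d)

/-- Row OPG2 (helper29): copy of OPG (`H54/ENR/OPG.lean`) with `y ^ (p ^ (2 * v))`. -/
def OPG2Stmt : Prop :=
  ∀ (p : ℕ) (G : Type) [Group G] [Finite G], p.Prime → CFactors2 G p → ∀ d : ℕ, GLaw G d →
    ∀ (y : G) (N : ℕ), y ^ (p ^ N) = 1 → ∀ v : ℕ, ¬ p ^ (v + 1) ∣ ed d →
      ∃ P : Subgroup G, P.Normal ∧ IsPGroup p P ∧ y ^ (p ^ (2 * v)) ∈ P

/-- Row PIG2 (helper29; needs OPG2). -/
def PIG2Stmt : Prop :=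
  ∀ (G : Type) [Group G] [Finite G] (π : Set ℕ), (∀ p ∈ π, p.Prime ∧ CFactors2 G p) → ∀ d : ℕ,
    GLaw G d → ∃ n : ℕ, 0 < n ∧ (∀ p ∈ π, ¬ p ∣ n) ∧ ∀ g : G, g ^ (ed d ^ 2 * n) ∈ Fit G

/-- Row SQC (about 150 lines; needs PRD, CHG, TRV and PB3; model: `H1/ENR/CP6.lean`). Proof. `b`
minimal with `y ^ (p ^ b)` in the normaliser of `S`, `k = p ^ b`. PB3: `y ^ (p ^ v)` normalises `S`,
so `b ≤ v` (this replaces TRV). `α` = conjugation by `(y ^ k)⁻¹` on `S`, `c₀` minimal with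
`α ^ (p ^ c₀) = 1`. CLAIM: `b + c₀ ≤ 2 * v`; then `y ^ (p ^ (2 * v))` is a power of
`(y ^ k) ^ (p ^ c₀)`, which centralises `S`. If `c₀ = 0`: `b ≤ v`. If `c₀ = m + 1`: transport `Sq p T`
to `S` (as row GIS or as in CP6) and apply it to `α, N, m`. `GLaw (ASg α) d` holds for every `b` (as in
CP6 for `b = 0`: the homomorphism `normalizer S →* MulAut S` has `ASg α` in its range). First
alternative: `p ^ (m+1) ∣ ed d`, `m + 1 ≤ v`, `b ≤ v`. Second: `m ≤ v`, `1 ≤ v` (`p ∣ ed d`); if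
`b = 0`: `m + 1 ≤ 2 v`. If `1 ≤ b`: CHG with `y₁ = y * t⁻¹`, PRD for `y₁` and `hL.sl y₁` give
`SL (tsh (conj t * α) k) d`, so `p ^ (b + 1) ∣ ed d`, `b + 1 ≤ v`, and `b + m + 1 ≤ 2 v`. -/
def SQCStmt : Prop :=
  ∀ (p : ℕ) (T : Type) [Group T] [Finite T], p.Prime → Sq p T → CompProp2 p T

/-- Row AS2 (about 60 lines; copy of `AS1`). Proof: `t ↦ conj t` is an injective homomorphism
`T →* ASg σ`; for `τ ∈ ASg σ` the conjugation by `τ` on `ASg σ` satisfies `SL` (`GLaw.sl` for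
`τ⁻¹`), and `conj (τ x) = τ * conj x * τ⁻¹`; `SL.of_inj`. -/
def AS2Stmt : Prop :=
  ∀ (T : Type) [Group T] (σ : MulAut T), (∀ t : T, MulAut.conj t = 1 → t = 1) → ∀ d : ℕ,
    GLaw (ASg σ) d → ∀ τ ∈ ASg σ, SL τ d

/-- Row TS1 (about 30 lines). Proof: `TSq τ 1 →* T`, `η ↦ η 0` is injective (`η (i+1) = τ (η i)`,
so also `η (i-1) = τ⁻¹ (η i)`) and carries `tsh τ 1` to `τ`: `SL.of_inj`. -/
def TS1Stmt : Prop :=
  ∀ (T : Type) [Group T] (τ : MulAut T) (d : ℕ), SL τ d → SL (tsh τ 1) d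

/-- Row BR2 (about 60 lines; copy of BRD, `Stmts.lean`, without oddness). Proof: `s = conj a⁻¹`,
`x = b⁻¹ a`: `ef s x = (s ^ 2) x`, `(ef s)^[n] x = (s ^ (2 n)) x`, `x` is periodic (`a` has finite
order), so `(ef s)^[d] x = x` and `a ^ (2 d)` commutes with `x`, hence with `b`. -/
def BR2Stmt : Prop :=
  ∀ (H : Type) [Group H] [Finite H] (a b : H), a * b * a = b * a * b →
    (∀ n : ℕ, a ^ n * b = b * a ^ n → a ^ n = 1) → ∀ d : ℕ, GLaw H d → a ^ (2 * d) = 1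

/-- Row CMM (about 90 lines): conjugations by matrices. For (3): `M' = A * M` with
`A = M' * M⁻¹`; `A` commutes with every `M X M⁻¹ ∈ SL2 F` up to sign; for unipotent `X` (trace `2`; in
the case of the sign `-1` the traces would give `2 = -2`, excluded by `2 ≠ 0`) it commutes, so with
all of `SL2 F`; so `A` is scalar. (4) `X' = X`. -/
def CMMStmt : Prop :=
  ∀ (F : Type) [Field F], (2 : F) ≠ 0 →
    (∀ (M M' : Matrix (Fin 2) (Fin 2) F) (σ σ' : MulAut (PS F)), M.det ≠ 0 → M'.det ≠ 0 →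
      CM F M σ → CM F M' σ' → CM F (M * M') (σ * σ')) ∧
    (∀ (M : Matrix (Fin 2) (Fin 2) F) (σ σ' : MulAut (PS F)), M.det ≠ 0 →
      CM F M σ → CM F M σ' → σ = σ') ∧
    (∀ (M M' : Matrix (Fin 2) (Fin 2) F) (σ : MulAut (PS F)), M.det ≠ 0 → M'.det ≠ 0 →
      CM F M σ → CM F M' σ → ∃ x : F, x ≠ 0 ∧ M' = x • M) ∧
    (∀ x : F, x ≠ 0 → CM F (x • (1 : Matrix (Fin 2) (Fin 2) F)) 1)

/-- Row Q7A (about 60 lines; the beginning of the proof of Q3A, `H*/ENR/Q3A.lean`). Proof: a ring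
automorphism of `F` of 2-power order is trivial (otherwise some power has order 2, with fixed field
`K`, and `|F| = |K| ^ 2 ≡ 1 mod 4`), so `fld σ = 1` and `σ = conj (pr g) * ee c 1` (`fld_spec`) is
the conjugation by `M = g * diag(c, 1)`. -/
def Q7AStmt : Prop :=
  ∀ (F : Type) [Field F] [Finite F], Nat.card F % 4 = 3 → ∀ (σ : MulAut (PS F)) (N : ℕ),
    σ ^ (2 ^ N) = 1 → ∃ M : Matrix (Fin 2) (Fin 2) F, M.det ≠ 0 ∧ CM F M σ

/-- Row Q7M (about 130 lines): braid partners. `M` is not scalar (`tr² ≠ 4 det`), so there is `P` with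
`M = P [[0, -δ], [1, τ]] P⁻¹`, `δ = det M`, `τ = tr M` (cyclic vector); it is enough to treat
`A = [[0, -δ], [1, τ]]` (conjugate the partner with `P`). Partner `B = [[x, y], [z, τ - x]]`,
`y = δ (1 + z) - τ² + τ x` (this is `tr (A B) = δ`), with `x² + τ (z - 1) x + δ z² + (δ - τ²) z + δ = 0`
(this is `det B = δ`). Solve it: `x = (τ (1 - z) + w) / 2`, `w² = D z² + (2 τ² - 4 δ) z + D`,
`D = τ² - 4 δ ≠ 0`: `FiniteField.exists_root_sum_quadratic` for `X²` and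
`-(D X² + (2 τ² - 4 δ) X + D)`. Braid relation: both `A B A` and `B A B` are `δ (A + B - τ)` (with
`P = A B`, `P² = δ P - δ²`; or by entries and `linear_combination`). Last part: `A^n B = x' B A^n`: `A^n` is
invertible, so `B = x' • (A^n)⁻¹ B A^n`, and the traces give `τ = x' τ`, `x' = 1`. If `A^n = u + w A`
with `w ≠ 0` (`A^n = u + w A` for some `u, w` by induction) then `B` commutes with `A`, so `A = B` by the
braid relation, and `tr (A²) = τ² - 2 δ = δ`, excluded by `τ² ≠ 3 δ`. So `w = 0`. -/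
def Q7MStmt : Prop :=
  ∀ (F : Type) [Field F] [Finite F] (M : Matrix (Fin 2) (Fin 2) F), (2 : F) ≠ 0 → M.det ≠ 0 →
    M.trace ≠ 0 → M.trace ^ 2 ≠ 4 * M.det → M.trace ^ 2 ≠ 3 * M.det →
    ∃ M' : Matrix (Fin 2) (Fin 2) F, M'.det = M.det ∧ M * M' * M = M' * M * M' ∧
      ∀ (n : ℕ) (x : F), M ^ n * M' = x • (M' * M ^ n) → ∃ y : F, M ^ n = y • 1

/-- Row Q7B (about 120 lines; needs Q7A, Q7M, CMM, BR2 and Q3C). Proof: `m ≤ 1`: `2 ∣ ed d` always.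
Let `2 ≤ m`, so `σ ^ 2 ≠ 1`. `M` of Q7A. CM for powers: `CM F (M ^ n) (σ ^ n)` (CMM (1), (4)); if
`M ^ n` is scalar then `σ ^ n = 1` (CMM (2), (4)). `tr M ≠ 0` (else `M² = - det M` is scalar,
`σ² = 1`). `tr² ≠ 4 det`: else `(M - tr/2)² = 0`, so `M ^ r` is scalar in characteristic `r`
(`r` odd), `σ ^ r = 1`, and `σ ^ (2 ^ N) = 1` gives `σ = 1`. `tr² ≠ 3 det`: else
`M³ = 2 det M • M - (tr det) • 1` and `M ^ 6` is scalar, `σ ^ 6 = 1`, so `σ ^ 2 = 1`. Q7M gives `M'`; Q3C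
(`r = 1`) gives `t` with `CM F M' β`, `β = conj t * σ`. CMM (1), (2): `σ β σ = β σ β`; if
`σ ^ n β = β σ ^ n` then by CMM (3) `M ^ n M' = x • M' M ^ n`, so `M ^ n` is scalar, `σ ^ n = 1`. BR2 in
the finite group `ASg σ` (`σ, β ∈ ASg σ`): `σ ^ (2 d) = 1`. If `2 ^ m ∤ d` then (gcd of `2 d` and
`2 ^ N`) `σ ^ (2 ^ m) = 1`. So `2 ^ m ∣ d ∣ ed d`. -/
def Q7BStmt : Prop :=
  ∀ (F : Type) [Field F] [Finite F], Nat.card F % 4 = 3 → ∀ (σ : MulAut (PS F)) (N m : ℕ),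
    σ ^ (2 ^ N) = 1 → σ ^ (2 ^ m) ≠ 1 → ∀ d : ℕ, GLaw (ASg σ) d → 2 ^ m ∣ ed d

/-- Row SB1 (about 80 lines; needs SY4, SE1, SCJ, SEC, CEN, AS2, TS1). Proof: `m = 0`: trivial. Let
`m = m' + 1`. `r` the characteristic, `q = r ^ f`. SY4: `h` with `σ₁ = conj h * σ * (conj h)⁻¹`,
`τ = σ₁ ^ 2` preserves `UU F`; `τ ^ (2 ^ m') = σ₁ ^ (2 ^ m) ≠ 1`. SE1 (`p = 2`): `Sec 2 m' τ`; SCJ:
`Sec 2 m' (σ ^ 2)`; SEC (`b = 0`): `Wr 2 (σ ^ 2) 0 m'`. AS2 (centre trivial by CEN): `SL (σ ^ 2) d`; TS1: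
`SL (tsh (σ ^ 2) 1) d` (`2 ^ 0 = 1`); so `2 ^ (0 + m' + 1) ∣ ed d`. -/
def SB1Stmt : Prop :=
  ∀ (F : Type) [Field F] [Finite F], Nat.card F % 4 = 1 → ∀ (σ : MulAut (PS F)) (N m : ℕ),
    σ ^ (2 ^ N) = 1 → σ ^ (2 ^ m) ≠ 1 → ∀ d : ℕ, GLaw (ASg σ) d → 2 ^ m ∣ ed d

/-- Row SQA (about 100 lines; needs PB1, SE1, SCJ, SEC, INV). Proof: `r` the (odd) characteristic,
`q = r ^ f`. PB1 (`p = 2`): `t`, a Sylow `r`-subgroup `R` preserved by `σ' = conj t * σ`, and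
`σ' ^ (2 ^ M) = 1`. If `σ' ≠ 1`: `UU F` is a Sylow `r`-subgroup (`sylow_of_card`, `card_UU`), so
`UU F = h R h⁻¹` and `conj h * σ' * (conj h)⁻¹` preserves `UU F`: SE1 (`m = 0`), SCJ: `Sec 2 0 σ'`;
SEC: `Wr 2 σ' b 0`. If `σ' = 1`: `s = pr (mk2 0 (-1) 1 0)`, `s ≠ 1`, `s * s = 1`;
`conj (s * t) * σ = conj s` is not trivial and has square `1`: INV: `Sec 2 0 (conj s)`; SEC. -/
def SQAStmt : Prop :=
  ∀ (F : Type) [Field F] [Finite F], (2 : F) ≠ 0 → IsSimpleGroup (PS F) →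
    (¬ ∀ a c : PS F, a * c = c * a) → ∀ (σ : MulAut (PS F)) (N : ℕ), σ ^ (2 ^ N) = 1 →
    ∃ t : PS F, ∀ b : ℕ, 1 ≤ b → ∀ d : ℕ, SL (tsh (MulAut.conj t * σ) (2 ^ b)) d →
      2 ^ (b + 1) ∣ ed d

end Pool.ENR
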