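import Pool.Agent.H29.ENR.Fin
import Pool.Agent.H29.ENR.Stmts11

/-!
# Board enr: assembly of the squared bound
-/

set_option autoImplicit false

namespace Pool.ENR

open Pool.Agent.H81.ENG Pool.Agent.H55.NEU

/-- Q1 at `p` for the groups `T⟨σ⟩`. -/
def Q1At (p : ℕ) (T : Type) [Group T] : Prop :=
  ∀ (σ : MulAut T) (N m : ℕ), σ ^ (p ^ N) = 1 → σ ^ (p ^ m) ≠ 1 →
    ∀ d : ℕ, GLaw (ASg σ) d → p ^ (m + 1) ∣ ed d

/-- The simple groups allowed for the squared bound. -/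
def Adm2 (p : ℕ) (T : Type) [Group T] : Prop :=
  (∃ n : ℕ, 5 ≤ n ∧ (p = 2 → n ≠ 6) ∧ Nonempty (T ≃* alternatingGroup (Fin n))) ∨
  (∃ (F : Type) (_ : Field F) (_ : Finite F), 4 ≤ Nat.card F ∧
    Nonempty (T ≃* Matrix.ProjectiveSpecialLinearGroup (Fin 2) F)) ∨
  Q1At p T

theorem CompProp.comp2 {p : ℕ} {T : Type} [Group T] (h : CompProp p T) : CompProp2 p T := by
  intro G _ _ S f y N d v h1 h2 h3 h4 h5 h6 t ht
  have h7 : p ^ (2 * v) = p ^ v * p ^ v := by rw [two_mul, pow_add]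
  rw [h7, pow_mul]
  exact (Commute.pow_left (show Commute (y ^ (p ^ v)) t from
    h G S f y N d v h1 h2 h3 h4 h5 h6 t ht) _).eq

theorem CompProp2.iso {p : ℕ} {T T' : Type} [Group T] [Group T'] (e : T ≃* T')
    (h : CompProp2 p T') : CompProp2 p T := by
  intro G _ _ S f y N d v h1 h2 h3 h4 h5 h6
  exact h G S (f.trans e) y N d v h1 h2 h3 h4 h5 h6

theorem two_dvd_ed (d : ℕ) : 2 ∣ ed d := by
  unfold ed
  split_ifs with h
  · rw [one_mul]
    exact Nat.dvd_of_mod_eq_zero h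
  · exact Dvd.intro _ rfl

theorem psl_sq (hSQA : SQAStmt) (hSB1 : SB1Stmt) (hQ7B : Q7BStmt) (F : Type) [Field F] [Finite F]
    (h2 : (2 : F) ≠ 0) (hs : IsSimpleGroup (PS F)) (hn : ¬ ∀ a c : PS F, a * c = c * a) :
    Sq 2 (PS F) := by
  intro σ N m h3 h4
  refine Or.inr ⟨fun d hd => ⟨?_, two_dvd_ed d⟩, hSQA F h2 hs hn σ N h3⟩
  have hodd : Nat.card F % 4 = 1 ∨ Nat.card F % 4 = 3 := by
    have : Fintype F := Fintype.ofFinite F
    have h5 : ringChar F ≠ 2 := by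
      intro h6
      have := ringChar.spec F 2
      rw [h6] at this
      exact h2 (by exact_mod_cast this.mpr dvd_rfl)
    have h6 := FiniteField.odd_card_of_char_ne_two h5
    rw [Nat.card_eq_fintype_card]
    omega
  rcases hodd with h5 | h5
  · exact hSB1 F h5 σ N m h3 h4 d hd
  · exact hQ7B F h5 σ N m h3 h4 d hd

theorem Adm2.comp (hCAL : CALStmt) (hCP6 : CP6Stmt) (hAS1 : AS1Stmt)
    (hGPS : GPSStmt) (hSQC : SQCStmt) (hSQA : SQAStmt) (hSB1 : SB1Stmt) (hQ7B : Q7BStmt)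
    {p : ℕ} (hp : p.Prime)
    {T : Type} [Group T] [Finite T] (hs : IsSimpleGroup T) (hn : ¬ ∀ a c : T, a * c = c * a)
    (h : Adm2 p T) : CompProp2 p T := by
  rcases h with ⟨n, h5, h6, ⟨e⟩⟩ | ⟨F, hF, hFf, h4, ⟨e⟩⟩ | h
  · exact ((hCAL p n hp h5 h6).comp2).iso e
  · refine CompProp2.iso e ?_
    have : Finite (PS F) := Finite.of_equiv T e.toEquiv
    have hs' : IsSimpleGroup (PS F) := e.symm.isSimpleGroup
    have hn' : ¬ ∀ a c : PS F, a * c = c * a := by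
      intro hab
      apply hn
      intro a c
      apply e.injective
      rw [map_mul, map_mul]
      exact hab _ _
    by_cases hp2 : p ≠ 2 ∨ (2 : F) = 0
    · exact (hCP6 p (PS F) hp (Good4.good6 hAS1 (centerless hs' hn')
        (hGPS F p hp h4 hp2).good4)).comp2
    · push Not at hp2
      obtain ⟨rfl, h2⟩ := hp2
      exact hSQC 2 (PS F) hp (psl_sq hSQA hSB1 hQ7B F h2 hs' hn')
  · exact hSQC p T hp fun σ N m h1 h2 => Or.inl (h σ N m h1 h2)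

/-- Every composition factor of order divisible by `p` is abelian or allowed. -/
def AFac2 (G : Type) [Group G] (p : ℕ) : Prop :=
  ∀ H : Subgroup G, H.IsSubnormal → ∀ (K : Subgroup H) (_ : K.Normal), IsSimpleGroup (H ⧸ K) →
    p ∣ Nat.card (H ⧸ K) → (∀ a b : H ⧸ K, a * b = b * a) ∨ Adm2 p (H ⧸ K)

theorem main_sq (hPIG2 : PIG2Stmt) (hCAL : CALStmt) (hCP6 : CP6Stmt) (hAS1 : AS1Stmt)
    (hGPS : GPSStmt) (hSQC : SQCStmt) (hSQA : SQAStmt) (hSB1 : SB1Stmt) (hQ7B : Q7BStmt)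
    (G : Type) [Group G] [Finite G] (π : Set ℕ) (hπ : ∀ p ∈ π, p.Prime ∧ AFac2 G p) (d : ℕ)
    (hd : GLaw G d) :
    ∃ n : ℕ, 0 < n ∧ (∀ p ∈ π, ¬ p ∣ n) ∧ ∀ g : G, g ^ (ed d ^ 2 * n) ∈ Fit G := by
  refine hPIG2 G π (fun p hp => ⟨(hπ p hp).1, ?_⟩) d hd
  intro H hH K hK hs hpd
  by_cases hab : ∀ a b : H ⧸ K, a * b = b * a
  · exact Or.inl hab
  · rcases (hπ p hp).2 H hH K hK hs hpd with h1 | h1
    · exact absurd h1 hab
    · exact Or.inr (Adm2.comp hCAL hCP6 hAS1 hGPS hSQC hSQA hSB1 hQ7B (hπ p hp).1 hs hab h1)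

end Pool.ENR
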