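import Pool.Agent.H29.ENR.Stmts8

/-!
# Board enr, part 9: sections; inner automorphisms of order `p` (Frobenius)
-/

set_option autoImplicit false

namespace Pool.ENR

open Pool.Agent.H81.ENG

/-- As `Gal`, with `lam ≡ 1 mod p`. -/
def GalM (p c : ℕ) {T : Type} [Group T] (σ : MulAut T) : Prop :=
  ∃ (A : Subgroup T) (n : T) (k lam : ℕ), IsPGroup p A ∧ (∀ x ∈ A, ∀ y ∈ A, x * y = y * x) ∧
    lam ≡ 1 [MOD p] ∧ (∀ x ∈ A, σ x = x ^ lam) ∧ (∀ x, x ∈ A ↔ n * x * n⁻¹ ∈ A) ∧ n ^ k = 1 ∧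
    ¬ p ∣ k ∧ σ n * n⁻¹ ∈ A ∧ ∃ x ∈ A, n * x ^ (p ^ (c - 1)) ≠ x ^ (p ^ (c - 1)) * n

/-- As `GalM`, in a section `A / D` and up to an inner automorphism. -/
def Gal2 (p c : ℕ) {T : Type} [Group T] (σ : MulAut T) : Prop :=
  ∃ (t : T) (A D : Subgroup T) (n : T) (k lam : ℕ), IsPGroup p A ∧ D ≤ A ∧
    (∀ x ∈ A, ∀ y ∈ A, x * y * x⁻¹ * y⁻¹ ∈ D) ∧ lam ≡ 1 [MOD p] ∧
    (∀ x, x ∈ D ↔ (MulAut.conj t * σ) x ∈ D) ∧
    (∀ x ∈ A, (MulAut.conj t * σ) x * (x ^ lam)⁻¹ ∈ D) ∧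
    (∀ x, x ∈ A ↔ n * x * n⁻¹ ∈ A) ∧ (∀ x, x ∈ D ↔ n * x * n⁻¹ ∈ D) ∧ n ^ k = 1 ∧ ¬ p ∣ k ∧
    (MulAut.conj t * σ) n * n⁻¹ ∈ A ∧
    ∃ x ∈ A, n * x ^ (p ^ (c - 1)) * n⁻¹ * (x ^ (p ^ (c - 1)))⁻¹ ∉ D

/-- Row GSM (copy of GSL, helper22, a few lines changed; needs QTL, GRL, MOD): `lam ≡ 1 mod p` is
given, so the order of `σ` plays no role. -/
def GSMStmt : Prop :=
  ∀ (T : Type) [Group T] [Finite T] (p c : ℕ) (σ : MulAut T), p.Prime → p ≠ 2 → 1 ≤ c →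
    GalM p c σ →
    ∃ t : T, ∀ b : ℕ, 1 ≤ b → ∀ d : ℕ, SL (tsh (MulAut.conj t * σ) (p ^ b)) d → p ^ (b + c) ∣ d

/-- Row GSX (about 130 lines; needs QTL, GSM). Proof: `σ' = conj t * σ`. `D` is normal in `A`
(commutators) and in `Γ = {a n ^ i | a ∈ A}`; `Γ` and `D` are `σ'`-invariant. `T' = Γ ⧸ D`, `τ`
induced by `σ'`; `GalM p c τ` with the images of `A` and `n`. GSM gives `t' ∈ T'`; lift it to
`t'' ∈ Γ`. `conj t'' * σ'` preserves `Γ`, `D` and induces `conj t' * τ`. QTL, and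
`conj t'' * (conj t * σ) = conj (t'' * t) * σ`. -/
def GSXStmt : Prop :=
  ∀ (T : Type) [Group T] [Finite T] (p c : ℕ) (σ : MulAut T), p.Prime → p ≠ 2 → 1 ≤ c →
    Gal2 p c σ →
    ∃ t : T, ∀ b : ℕ, 1 ≤ b → ∀ d : ℕ, SL (tsh (MulAut.conj t * σ) (p ^ b)) d → p ^ (b + c) ∣ d

/-- Every element of order prime to `p` normalising a `p`-subgroup centralises it. -/
def FrH (G : Type) [Group G] (p : ℕ) : Prop :=
  ∀ Q : Subgroup G, IsPGroup p Q → ∀ (n : G) (k : ℕ), (∀ x, x ∈ Q ↔ n * x * n⁻¹ ∈ Q) →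
    n ^ k = 1 → ¬ p ∣ k → ∀ x ∈ Q, n * x = x * n

/-- Row FR1 (about 130 lines). Isaacs, Finite Group Theory, proof of 5.26. Induction on
`|P : P ⊓ Q|` (or downward on the order of `D = P ⊓ Q`). If `D = P` then `P = Q`, `c = 1`. Otherwise
`D < P`, `D < Q`, and normalisers grow: `D < N_P(D)`, `D < N_Q(D)`. `N = normalizer D`,
`C = centralizer D`; by `FrH` every element of `N` of order prime to `p` is in `C`, so `N / C` is a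
`p`-group. Let `S₁, S₂` be Sylow `p`-subgroups of `N` containing `N_P(D)`, `N_Q(D)`; `S₂` is a
conjugate of `S₁` in `N = C S₁`, so `S₂ = c₀ S₁ c₀⁻¹` with `c₀ ∈ C`. Let `R` be a Sylow subgroup of
`G` containing `S₁`; `P ⊓ R ≥ N_P(D) > D`, so by induction `R = a P a⁻¹` with `a` centralising
`P ⊓ R ≥ D`; `R' = c₀ R c₀⁻¹ ≥ S₂`, `Q ⊓ R' ≥ N_Q(D) > D`, so `Q = b R' b⁻¹` with `b` centralising
`R' ⊓ Q ≥ D`. `c = b c₀ a`. -/
def FR1Stmt : Prop :=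
  ∀ (G : Type) [Group G] [Finite G] (p : ℕ) [Fact p.Prime], FrH G p → ∀ P Q : Sylow p G,
    ∃ c : G, (∀ x, x ∈ P → x ∈ Q → c * x = x * c) ∧ ∀ x, x ∈ P ↔ c * x * c⁻¹ ∈ Q

/-- Row FR2 (about 50 lines; needs FR1). Proof: `Q = g⁻¹ P g`; `g⁻¹ x g ∈ P ⊓ Q`. FR1 for `Q, P`:
`c` centralises `g⁻¹ x g` and `c Q c⁻¹ = P`, so `h = g c⁻¹` normalises `P` and `h⁻¹ x h = g⁻¹ x g`.
`h = u v`, `u` a power of `h` of `p`-power order, `v` of order prime to `p`, commuting; `v`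
centralises `P` (`FrH`), and `u ∈ P` (`P` is the unique Sylow subgroup of its normaliser). -/
def FR2Stmt : Prop :=
  ∀ (G : Type) [Group G] [Finite G] (p : ℕ) [Fact p.Prime], FrH G p → ∀ (P : Sylow p G),
    ∀ x ∈ P, ∀ g : G, g⁻¹ * x * g ∈ P → ∃ u ∈ P, g⁻¹ * x * g = u⁻¹ * x * u

/-- Row FRB (about 90 lines; needs FR2): Frobenius. Proof: otherwise `FrH T p`. `P` a Sylow subgroup,
`P ≠ ⊥`; `ϕ : P →* Abelianization P`, `V = MonoidHom.transfer ϕ : T →* Abelianization P`. By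
`MonoidHom.transfer_eq_prod_quotient_orbitRel_zpowers_quot` (see the proof of
`MonoidHom.transfer_eq_pow`) `V x` for `x ∈ P` is a product of terms
`ϕ (g⁻¹ x ^ k g)`, `∑ k = P.index`; by FR2 `g⁻¹ x ^ k g` is conjugate to `x ^ k` in `P`, so
`V x = ϕ x ^ P.index`. `T` is simple and not abelian, so `V = 1`, so `ϕ x ^ P.index = 1` and `ϕ x = 1`
(`P.index` is prime to `p`) for all `x ∈ P`: `P` is perfect, impossible for a nontrivial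
`p`-group (solvable). -/
def FRBStmt : Prop :=
  ∀ (T : Type) [Group T] [Finite T] (p : ℕ) [Fact p.Prime], IsSimpleGroup T →
    (¬ ∀ a c : T, a * c = c * a) → p ∣ Nat.card T →
    ∃ (Q : Subgroup T) (n : T) (k : ℕ), IsPGroup p Q ∧ (∀ x, x ∈ Q ↔ n * x * n⁻¹ ∈ Q) ∧
      n ^ k = 1 ∧ ¬ p ∣ k ∧ ∃ x ∈ Q, n * x ≠ x * n

/-- Row SER (about 80 lines). Proof: `Q i` = the derived series of `Q` (images in `T`),
`Q 0 = Q`, `Q r = ⊥` (`p`-groups are solvable), all normalised by `n` (characteristic in `Q`).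
Suppose `n x n⁻¹ x⁻¹ ∈ Q (i+1)` for all `i` and `x ∈ Q i`. Then `n` centralises `Q i` for all `i`, by
downward induction: if `n` centralises `Q (i+1)` and `x ∈ Q i`, `n x n⁻¹ = c x`, `c ∈ Q (i+1)`, then
`n ^ k x n ^ (-k) = c ^ k x`, so `c ^ k = 1`, `c = 1` (`p ∤ k`). Contradiction for `i = 0`. So
`A = Q i`, `D = Q (i+1)` for some `i`. -/
def SERStmt : Prop :=
  ∀ (T : Type) [Group T] [Finite T] (p : ℕ) [Fact p.Prime] (Q : Subgroup T) (n : T) (k : ℕ),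
    IsPGroup p Q → (∀ x, x ∈ Q ↔ n * x * n⁻¹ ∈ Q) → n ^ k = 1 → ¬ p ∣ k →
    (∃ x ∈ Q, n * x ≠ x * n) → ∃ A D : Subgroup T, A ≤ Q ∧ D ≤ A ∧
      (∀ x ∈ A, ∀ y ∈ A, x * y * x⁻¹ * y⁻¹ ∈ D) ∧ (∀ x, x ∈ A ↔ n * x * n⁻¹ ∈ A) ∧
      (∀ x, x ∈ D ↔ n * x * n⁻¹ ∈ D) ∧ ∃ x ∈ A, n * x * n⁻¹ * x⁻¹ ∉ D

/-- Row INN (about 40 lines; needs FRB, SER). Proof: `σ = conj s ≠ 1` has `p`-power order, so `p`
divides the order of `s` and `card T`. `Gal2 p 1 σ` with `t = s⁻¹` (`conj t * σ = 1`), `lam = 1` and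
the `A, D, n, k` of FRB and SER. -/
def INNStmt : Prop :=
  ∀ (T : Type) [Group T] [Finite T] (p N : ℕ) [Fact p.Prime] (s : T), IsSimpleGroup T →
    (¬ ∀ a c : T, a * c = c * a) → (MulAut.conj s : MulAut T) ≠ 1 →
    (MulAut.conj s : MulAut T) ^ (p ^ N) = 1 → Gal2 p 1 (MulAut.conj s : MulAut T)

end Pool.ENR
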