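import Pool.Agent.H29.ENR.Fin
import Pool.Agent.H29.ENR.TopGen

/-!
# Groups with at most one prime dividing both the order and `e * d`
-/

set_option autoImplicit false
set_option linter.style.haveILetI false

namespace Pool.ENR

open Pool.Agent.H81.ENG

/-- At most one prime divides both `|G|` and `e * d`. -/
def OneP (G : Type) [Group G] (d : ℕ) : Prop :=
  ∀ p q : ℕ, p.Prime → q.Prime → p ∣ Nat.card G → q ∣ Nat.card G → p ∣ ed d → q ∣ ed d → p = q

theorem glaw_sub {G : Type} [Group G] {d : ℕ} (h : GLaw G d) (H : Subgroup G) : GLaw H d := by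
  obtain ⟨r, hr⟩ := h
  refine ⟨r, ?_⟩
  have key : ∀ (n : ℕ) (x y : H), (((fun z : H => z⁻¹ * y⁻¹ * z * y)^[n] x : H) : G) =
      (fun z : G => z⁻¹ * (y : G)⁻¹ * z * y)^[n] (x : G) := by
    intro n
    induction n with
    | zero => intro x y; rfl
    | succ n ih =>
      intro x y
      rw [Function.iterate_succ_apply, Function.iterate_succ_apply, ih]
      rfl
  intro x y
  apply Subtype.ext
  rw [key, key, hr]

theorem two_primes (hFRB : FRBStmt) {T : Type} [Group T] [Finite T] (hs : IsSimpleGroup T)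
    (hn : ¬ ∀ a c : T, a * c = c * a) {p : ℕ} (hp : p.Prime) (hpT : p ∣ Nat.card T) {d : ℕ}
    (hL : GLaw T d) : ∃ q : ℕ, q.Prime ∧ q ≠ p ∧ q ∣ Nat.card T ∧ q ∣ ed d := by
  haveI : Fact p.Prime := ⟨hp⟩
  obtain ⟨Q, n, k, hQ, hnQ, hk, hpk, x, hxQ, hnx⟩ := hFRB T p hs hn hpT
  obtain ⟨m, q, a, hq, hqp, h1, h2⟩ := out_qpart p x k n hk hpk hnx
  haveI : Fact q.Prime := ⟨hq⟩
  refine ⟨q, hq, hqp, ?_, ?_⟩
  · have h3 : orderOf (n ^ m) ≠ 1 := by
      intro h
      rw [orderOf_eq_one_iff] at h
      rw [h, one_mul, mul_one] at h2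
      exact h2 rfl
    obtain ⟨j, -, hj⟩ := (Nat.dvd_prime_pow hq).mp (orderOf_dvd_of_pow_eq_one h1)
    have hj0 : j ≠ 0 := by
      rintro rfl
      exact h3 (by simpa using hj)
    have h4 : q ∣ orderOf (n ^ m) := by
      rw [hj]
      exact dvd_pow_self q hj0
    exact h4.trans (orderOf_dvd_natCard _)
  · by_contra hcon
    let H : Subgroup T := Subgroup.normalizer (Q : Set T)
    have hnH : n ∈ H := Subgroup.mem_normalizer_iff.mpr hnQ
    have hmH : n ^ m ∈ H := H.pow_mem hnH m
    have hQH : Q ≤ H := Subgroup.le_normalizer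
    haveI hMn : (Q.subgroupOf H).Normal := Subgroup.normal_in_normalizer
    have hLH : GLaw H d := glaw_sub hL H
    have hMp : IsPGroup p (Q.subgroupOf H) := hQ.comap_subtype
    have hc : ¬ q ∣ Nat.card (Q.subgroupOf H) := by
      intro h
      obtain ⟨j, hj⟩ := (IsPGroup.iff_card).mp hMp
      rw [hj] at h
      exact hqp ((Nat.prime_dvd_prime_iff_eq hq hp).mp (hq.dvd_of_dvd_pow h))
    have h5 := coprime_case (M := Q.subgroupOf H) hLH hq hc (y := ⟨n ^ m, hmH⟩) (N := a)
      (Subtype.ext h1) (v := 0) (by simpa using hcon) ⟨x, hQH hxQ⟩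
      (Subgroup.mem_subgroupOf.mpr hxQ)
    apply h2
    have h6 := congrArg Subtype.val h5
    simpa using h6

theorem OneP.of_dvd {G G' : Type} [Group G] [Group G'] {d : ℕ} (h : OneP G d)
    (hc : Nat.card G' ∣ Nat.card G) : OneP G' d :=
  fun p q hp hq h1 h2 h3 h4 => h p q hp hq (h1.trans hc) (h2.trans hc) h3 h4

theorem onep_solvable (hFRB : FRBStmt) (d : ℕ) : ∀ (n : ℕ) (G : Type) [Group G] [Finite G],
    Nat.card G = n → OneP G d → GLaw G d → Group.IsSolvable G := by
  intro n
  induction n using Nat.strong_induction_on with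
  | _ n ih =>
    intro G _ _ hcard hP hL
    by_cases hN : ∃ N : Subgroup G, N.Normal ∧ N ≠ ⊥ ∧ N ≠ ⊤
    · obtain ⟨N, hNn, hNb, hNt⟩ := hN
      have hmul := Subgroup.card_eq_card_quotient_mul_card_subgroup N
      have hpos : 0 < Nat.card G := Nat.card_pos
      have h1 : 1 < Nat.card N := (Subgroup.one_lt_card_iff_ne_bot N).mpr hNb
      have h2 : Nat.card N < Nat.card G := by
        have h3 := Subgroup.card_le_card_group N
        rcases h3.lt_or_eq with h4 | h4
        · exact h4
        · exact absurd (Subgroup.eq_top_of_card_eq N h4) hNt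
      have h4 : Nat.card (G ⧸ N) < Nat.card G := by
        have h5 : 0 < Nat.card (G ⧸ N) := Nat.card_pos
        rw [hmul]
        exact lt_mul_of_one_lt_right h5 h1
      haveI hs1 : Group.IsSolvable N := ih (Nat.card N) (hcard ▸ h2) N rfl
        (hP.of_dvd (Subgroup.card_subgroup_dvd_card N)) (glaw_sub hL N)
      haveI hs2 : Group.IsSolvable (G ⧸ N) := ih (Nat.card (G ⧸ N)) (hcard ▸ h4) (G ⧸ N) rfl
        (hP.of_dvd (Subgroup.card_quotient_dvd_card N)) (hL.quotient N)
      refine Group.isSolvable_of_ker_le_range N.subtype (QuotientGroup.mk' N) ?_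
      rw [QuotientGroup.ker_mk', Subgroup.range_subtype]
    · push Not at hN
      by_cases hab : ∀ a c : G, a * c = c * a
      · exact Group.isSolvable_of_comm hab
      · exfalso
        have hnt : Nontrivial G := by
          by_contra h
          rw [not_nontrivial_iff_subsingleton] at h
          exact hab (fun a c => Subsingleton.elim _ _)
        have hs : IsSimpleGroup G := by
          refine { eq_bot_or_eq_top_of_normal := fun N hNn => ?_ }
          by_cases hb : N = ⊥
          · exact Or.inl hb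
          · exact Or.inr (hN N hNn hb)
        have hc1 : Nat.card G ≠ 1 := by
          intro h
          have := Finite.one_lt_card (α := G)
          omega
        obtain ⟨p, hp, hpG⟩ := Nat.exists_prime_and_dvd hc1
        obtain ⟨q, hq, hqp, hqG, hqd⟩ := two_primes hFRB hs hab hp hpG hL
        obtain ⟨r, hr, hrq, hrG, hrd⟩ := two_primes hFRB hs hab hq hqG hL
        exact hrq (hP r q hr hq hrG hqG hrd hqd)

theorem solvable_pfactors {G : Type} [Group G] [Finite G] (h : Group.IsSolvable G) (p : ℕ) :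
    PFactors G p := by
  intro H _ K _ hs _
  left
  haveI := h
  haveI : Group.IsSolvable H := inferInstance
  haveI : Group.IsSolvable (H ⧸ K) := inferInstance
  exact (IsSimpleGroup.comm_iff_isSolvable (G := H ⧸ K)).mpr inferInstance

theorem onep_main (hFRB : FRBStmt) {G : Type} [Group G] [Finite G] {d : ℕ} (hP : OneP G d)
    (hL : GLaw G d) (g : G) : g ^ ed d ∈ Fit G := by
  have hs := onep_solvable hFRB d (Nat.card G) G rfl hP hL
  obtain ⟨n, hn0, hn, hg⟩ := pi_part (G := G) {p : ℕ | p.Prime}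
    (fun p hp => ⟨hp, solvable_pfactors hs p⟩) hL
  have h1 : n = 1 := by
    by_contra h
    obtain ⟨p, hp, hpn⟩ := Nat.exists_prime_and_dvd h
    exact hn p hp hpn
  have h2 := hg g
  rwa [h1, mul_one] at h2

end Pool.ENR
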