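import Pool.Agent.H29.ENR.Stmts11

/-!
# Board enr, row PIG2
-/

set_option autoImplicit false

namespace Pool.ENR

open Pool.Agent.H81.ENG

theorem pig2_p_part {G : Type} [Group G] [Finite G] {d p : ℕ} (hp : p.Prime)
    (h : ∀ (y : G) (N : ℕ), y ^ (p ^ N) = 1 → ∀ (v : ℕ), ¬ p ^ (v + 1) ∣ ed d →
      ∃ P : Subgroup G, P.Normal ∧ IsPGroup p P ∧ y ^ (p ^ (2 * v)) ∈ P) (g : G) :
    ∃ n : ℕ, ¬ p ∣ n ∧ g ^ (ed d ^ 2 * n) ∈ Fit G := by
  have : Fact p.Prime := ⟨hp⟩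
  have hPF : ∀ P : Subgroup G, P.Normal → IsPGroup p P → P ≤ Fit G := by
    intro P hPn hPp
    have hnil : Group.IsNilpotent P := hPp.isNilpotent
    exact le_iSup₂_of_le P ⟨hPn, hnil⟩ le_rfl
  obtain ⟨N, w, hw, ho⟩ := Nat.exists_eq_pow_mul_and_not_dvd (orderOf_pos g).ne' p hp.ne_one
  refine ⟨w, hw, ?_⟩
  by_cases hD : ed d = 0
  · rw [hD, zero_pow two_ne_zero, zero_mul, pow_zero]
    exact Subgroup.one_mem _
  · obtain ⟨v, D', hD', hDv⟩ := Nat.exists_eq_pow_mul_and_not_dvd hD p hp.ne_one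
    have hnd : ¬ p ^ (v + 1) ∣ ed d := by
      rw [hDv, pow_succ]
      intro hcon
      exact hD' (Nat.dvd_of_mul_dvd_mul_left (pow_pos hp.pos v) hcon)
    obtain ⟨P, hPn, hPp, hz⟩ := h (g ^ w) N
      (by rw [← pow_mul, mul_comm, ← ho, pow_orderOf_eq_one]) v hnd
    have h1 : g ^ (ed d ^ 2 * w) = ((g ^ w) ^ (p ^ (2 * v))) ^ (D' ^ 2) := by
      rw [← pow_mul, ← pow_mul, hDv]
      congr 1
      ring
    rw [h1]
    exact Subgroup.pow_mem _ (hPF P hPn hPp hz) _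

/-- The `π`-part, from row OPG2. -/
theorem pig2_thm (h1 : OPG2Stmt) : PIG2Stmt := by
  classical
  intro G _ _ π hπ d hL
  have key : ∀ g : G, ∃ n : ℕ, 0 < n ∧ (∀ p ∈ π, ¬ p ∣ n) ∧ g ^ (ed d ^ 2 * n) ∈ Fit G := by
    intro g
    have h0 : (g ^ (ed d ^ 2)) ^ (orderOf g) ∈ Fit G := by
      rw [← pow_mul, mul_comm, pow_mul, pow_orderOf_eq_one, one_pow]
      exact Subgroup.one_mem _
    obtain ⟨m, hm0, hmF, hmd⟩ := exists_min_exp (Fit G) (orderOf_pos g) h0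
    refine ⟨m, hm0, ?_, by rw [pow_mul]; exact hmF⟩
    intro p hp hpm
    obtain ⟨n, hn, hg⟩ := pig2_p_part (hπ p hp).1
      (fun y N hy v hv => h1 p G (hπ p hp).1 (hπ p hp).2 d hL y N hy v hv) g
    rw [pow_mul] at hg
    exact hn (dvd_trans hpm (hmd n hg))
  choose f hf0 hfp hfF using key
  have := Fintype.ofFinite G
  refine ⟨∏ g : G, f g, Finset.prod_pos (fun g _ => hf0 g), ?_, ?_⟩
  · intro p hp hpd
    obtain ⟨g, -, hg⟩ := (Prime.dvd_finsetProd_iff (hπ p hp).1.prime f).mp hpd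
    exact hfp g p hp hg
  · intro g
    obtain ⟨k, hk⟩ := Finset.dvd_prod_of_mem f (Finset.mem_univ g)
    rw [hk, ← mul_assoc, pow_mul]
    exact Subgroup.pow_mem _ (hfF g) k

end Pool.ENR
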