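import Pool.Agent.H81.ENG.PiPart

/-!
# Board enr (MP_d15c96_al), general theory

Engel period: the reduction theorem. Notation of `Pool.Agent.H81.ENG`: `ef s x = x⁻¹ * s x`,
`L s d` (law `f^r = f^(r+d)` for `f = ef s`), `SL s d` (`L s d` and `L s⁻¹ d`),
`ed d = (if d % 2 = 0 then 1 else 2) * d`, `GLaw G d` (Engel law of the group `G` with period `d`),
`shift`, `restr`, `coprime_fix`, `root_seq`, `Base.main`, `unip`, `comp_case`, `op_main`.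
Every row `XXX` is a statement `XXXStmt : Prop`; the proof is in its docstring.
-/

set_option autoImplicit false

namespace Pool.ENR

open Pool.Agent.H81.ENG

/-- Sequences `η : ℤ → T` with `η (i + k) = σ (η i)`. -/
def TSq {T : Type} [Group T] (σ : MulAut T) (k : ℕ) : Subgroup (ℤ → T) where
  carrier := {η | ∀ i : ℤ, η (i + k) = σ (η i)}
  one_mem' := fun i => by simp
  mul_mem' := by
    intro a b ha hb i
    rw [Pi.mul_apply, Pi.mul_apply, ha, hb, map_mul]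
  inv_mem' := by
    intro a ha i
    rw [Pi.inv_apply, Pi.inv_apply, ha, map_inv]

theorem TSq_shift {T : Type} [Group T] (σ : MulAut T) (k : ℕ) (ξ : ℤ → T) :
    ξ ∈ TSq σ k ↔ shift T ξ ∈ TSq σ k := by
  constructor
  · intro h i
    rw [shift_apply, shift_apply, ← h]
    congr 1
    ring
  · intro h i
    have h1 := h (i - 1)
    rw [shift_apply, shift_apply, sub_add_cancel] at h1
    rw [← h1]
    congr 1
    ring

/-- The shift on twisted periodic sequences. -/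
def tsh {T : Type} [Group T] (σ : MulAut T) (k : ℕ) : MulAut (TSq σ k) :=
  restr (shift T) (TSq σ k) (TSq_shift σ k)

theorem tsh_apply {T : Type} [Group T] (σ : MulAut T) (k : ℕ) (x : TSq σ k) (i : ℤ) :
    ((tsh σ k x : TSq σ k) : ℤ → T) i = (x : ℤ → T) (i + 1) := rfl

/-- The wanted divisibility for an automorphism `σ` with `σ ^ (p ^ m) ≠ 1`. -/
def Wr (p : ℕ) {T : Type} [Group T] (σ : MulAut T) (b m : ℕ) : Prop :=
  ∀ d : ℕ, SL (tsh σ (p ^ b)) d → p ^ (b + m + 1) ∣ ed d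

/-- Section type: a `σ`-invariant section `Γ / D` of order prime to `p` on which `σ ^ (p ^ m)` acts
nontrivially. -/
def Sec (p m : ℕ) {T : Type} [Group T] (σ : MulAut T) : Prop :=
  ∃ Γ D : Subgroup T, (∀ x, x ∈ Γ ↔ σ x ∈ Γ) ∧ (∀ x, x ∈ D ↔ σ x ∈ D) ∧ D ≤ Γ ∧
    (∀ g ∈ Γ, ∀ x ∈ D, g * x * g⁻¹ ∈ D) ∧ ¬ p ∣ D.relIndex Γ ∧ D.relIndex Γ ≠ 0 ∧
    ∃ x ∈ Γ, (σ ^ (p ^ m)) x * x⁻¹ ∉ D

/-- Cyclic type. -/
def Cyc (p c : ℕ) {T : Type} [Group T] (σ : MulAut T) : Prop :=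
  ∃ (s n : T) (lam j u : ℕ), orderOf s = p ^ c ∧ σ s = s ^ lam ∧ lam ≡ 1 [MOD p] ∧
    n * s * n⁻¹ = s ^ j ∧ ¬ j ≡ 1 [MOD p] ∧ σ n = s ^ u * n ∧ ¬ p ∣ u

/-- The condition on a simple group `T` used in the induction. -/
def Good (p : ℕ) (T : Type) [Group T] : Prop :=
  ∀ (σ : MulAut T) (N m : ℕ), σ ^ (p ^ N) = 1 → σ ^ (p ^ m) ≠ 1 →
    Sec p m σ ∨
    (∃ (t : T) (c : ℕ), m + 1 ≤ c ∧ Cyc p c (MulAut.conj t * σ) ∧
      ∀ d : ℕ, GLaw T d → p ^ (m + 1) ∣ ed d) ∨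
    ∀ b : ℕ, Wr p σ b m

/-- A conjugate `g S g⁻¹` of the subgroup `S` is `S` or commutes with `S`. -/
def Dich {G : Type} [Group G] (S : Subgroup G) : Prop :=
  ∀ g : G, (∀ t, t ∈ S ↔ g * t * g⁻¹ ∈ S) ∨
    (∀ t ∈ S, ∀ t' ∈ S, (g * t * g⁻¹) * t' = t' * (g * t * g⁻¹))

/-- The property of a simple group `T` (as a component) which the induction needs. -/
def CompProp (p : ℕ) (T : Type) [Group T] : Prop :=
  ∀ (G : Type) [Group G] [Finite G] (S : Subgroup G) (_ : S ≃* T) (y : G) (N d v : ℕ),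
    y ^ (p ^ N) = 1 → IsSimpleGroup S → (¬ ∀ a ∈ S, ∀ b ∈ S, a * b = b * a) → Dich S →
    GLaw G d → ¬ p ^ (v + 1) ∣ ed d → ∀ t ∈ S, y ^ (p ^ v) * t = t * y ^ (p ^ v)

/-- Every composition factor of `G` of order divisible by `p` is abelian or has `CompProp`. -/
def CFactors (G : Type) [Group G] (p : ℕ) : Prop :=
  ∀ H : Subgroup G, H.IsSubnormal → ∀ (K : Subgroup H) (_ : K.Normal), IsSimpleGroup (H ⧸ K) →
    p ∣ Nat.card (H ⧸ K) → (∀ a b : H ⧸ K, a * b = b * a) ∨ CompProp p (H ⧸ K)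

/-! ## Algebra -/

/-- Row FLD (about 60 lines). Proof: every irreducible factor `π` of `f` divides
`X * (X ^ m - 1)`, where `m = ∏_{i=1}^{n} (p ^ i - 1)`, `n = f.natDegree` (`p ∤ m`). Indeed
`K = AdjoinRoot π` is a finite field with `p ^ i` elements, `i = π.natDegree ≤ n`; if the root
`α` is `0` then `π` divides `X`; otherwise `α ^ (p ^ i - 1) = 1` (order of `Kˣ`), so `α ^ m = 1`
and `π ∣ X ^ m - 1` (`AdjoinRoot.mk_eq_zero`). Then `f`, a product of at most `n` irreducible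
factors (times a unit) each dividing `F = X * (X ^ m - 1)`, divides `F ^ n`: use
`UniqueFactorizationMonoid.normalizedFactors f` (a multiset of at most `n` elements, the product is
associated to `f`), or strong induction on the degree: `f = π * g`,
`g ∣ F ^ g.natDegree`, `π ∣ F` (with `m` fixed in advance for the bound `n`: prove the auxiliary
statement `∀ f ≠ 0, f.natDegree ≤ n → f ∣ F ^ f.natDegree`). -/
def FLDStmt : Prop :=
  ∀ (p : ℕ) [Fact p.Prime] (f : Polynomial (ZMod p)), f.Monic →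
    ∃ m : ℕ, ¬ p ∣ m ∧ f ∣ (Polynomial.X * (Polynomial.X ^ m - 1)) ^ f.natDegree

/-- Row LIF (about 50 lines). Proof: induction, claim for `i`: there are `t, y` with
`x ^ t * (x ^ (m * p ^ i) - 1) = p ^ (i + 1) * y`. Step: put `W = x ^ (m * p ^ i)`, `E = W - 1`,
so `x ^ t * E = p ^ (i+1) * y`. `W ^ p - 1 = (1 + E) ^ p - 1 = p * E * G + E ^ p` for some `G`
(`add_pow_le`: e.g. Mathlib `exists_add_pow_prime_eq : (x + y) ^ p = x ^ p + y ^ p + p * x * y * r`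
with `x = 1`). Multiply by `x ^ (t * p)`: `x ^ (t*p) * E ^ p = (p ^ (i+1) * y) ^ p`, divisible by
`p ^ (i + 2)` since `p * (i+1) ≥ i + 2`; and `x ^ (t*p) * p * E * G` is divisible by
`p * p ^ (i+1)`. For `i = c - 1` use `(p : B) ^ c = 0`. -/
def LIFStmt : Prop :=
  ∀ (B : Type) [CommRing B] (p c : ℕ) (x : B) (t m : ℕ), p.Prime → 1 ≤ c → (p : B) ^ c = 0 →
    (∃ y : B, x ^ t * (x ^ m - 1) = p * y) → ∃ t' : ℕ, x ^ (t' + m * p ^ (c - 1)) = x ^ t'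

/-- Row CHP (about 90 lines; needs FLD, LIF). Proof: `χ = M.charpoly` is monic of degree
`p ^ b + 1`. Let `φ : ZMod (p ^ c) →+* ZMod p` be the canonical map (`ZMod.castHom`); an element of
`ZMod (p ^ c)` which is not a unit is mapped to `0` and is a multiple of `p`; the kernel of `φ` is
`(p)`. The constant coefficient of `χ` is `± det M` (`Matrix.det_eq_sign_charpoly_coeff`), not a
unit, so `X` divides `χ.map φ = X * g`, `g` monic of degree `p ^ b`. FLD: `g` divides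
`(X * (X ^ m - 1)) ^ (p ^ b) = X ^ (p ^ b) * (X ^ (m * p ^ b) - 1)` (characteristic `p`,
`sub_pow_char_pow`). So `χ.map φ ∣ X ^ (p ^ b + 1) * (X ^ (m * p ^ b) - 1)` in `(ZMod p)[X]`. Lift
the cofactor: there are `Q, H` in `(ZMod (p ^ c))[X]` with
`χ * Q = X ^ (p ^ b + 1) * (X ^ (m * p ^ b) - 1) + p * H` (a polynomial killed by `φ` is a
multiple of `C p`). In the commutative ring `B = (ZMod (p ^ c))[X] ⧸ span {χ}` the class `x` of `X`
satisfies the hypothesis of LIF with `t = p ^ b + 1` and `m * p ^ b`; get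
`x ^ (t' + m * p ^ b * p ^ (c-1)) = x ^ t'`, that is, `χ ∣ X ^ (..) - X ^ t'`; apply `aeval M`
and Cayley-Hamilton (`Matrix.aeval_self_charpoly`). Note `p ^ b * p ^ (c - 1) = p ^ (b + c - 1)`. -/
def CHPStmt : Prop :=
  ∀ (p b c : ℕ) [Fact p.Prime], 1 ≤ c → ∀ (n : Type) [Fintype n] [DecidableEq n],
    Fintype.card n = p ^ b + 1 → ∀ M : Matrix n n (ZMod (p ^ c)), ¬ IsUnit M.det →
      ∃ m t : ℕ, ¬ p ∣ m ∧ M ^ (t + m * p ^ (b + c - 1)) = M ^ t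

/-- Row AFF (about 70 lines; needs CHP). Proof: `A` is `ZMod (p ^ c)`-linear
(`AddMonoidHom.toZModLinearMap`), with matrix `A₀`. Let
`M = Matrix.fromBlocks A₀ (column u) 0 1` over the index type `Fin (p ^ b) ⊕ Unit`
(`card = p ^ b + 1`). Then `M *ᵥ (v, 1) = (A v + u, 1)`, so `M ^ i *ᵥ (v, 1) = (φ^[i] v, 1)`, and
`M *ᵥ (z, 0) = 0` with `(z, 0) ≠ 0`, so `det M` is not a unit (otherwise `M⁻¹` exists). Use CHP and
compare the first components. -/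
def AFFStmt : Prop :=
  ∀ (p b c : ℕ) [Fact p.Prime], 1 ≤ c →
    ∀ (A : (Fin (p ^ b) → ZMod (p ^ c)) →+ (Fin (p ^ b) → ZMod (p ^ c)))
      (u z : Fin (p ^ b) → ZMod (p ^ c)), z ≠ 0 → A z = 0 →
      ∃ m t : ℕ, ¬ p ∣ m ∧
        ∀ v, (fun v => A v + u)^[t + m * p ^ (b + c - 1)] v = (fun v => A v + u)^[t] v

/-- Row NUM (about 60 lines). `p` odd, `lam ≡ 1 mod p`, `M = p ^ (c-1) * M'` with `p ∤ M'`,
`p ∤ u`: then `p ^ c` does not divide `e * (lam ^ M - 1) + u * ∑_{i<M} lam ^ i` (integers).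
Proof: `p ^ c ∣ lam ^ M - 1` (`p ^ c ∣ lam ^ (p ^ (c-1)) - 1`, e.g. `Int.emultiplicity_pow_sub_pow`
or `dvd_sub_pow_of_dvd_sub`), so it is enough that `p ^ c ∤ S`, `S = ∑_{i<M} lam ^ i`. Write
`S = (∑_{i<p^(c-1)} lam ^ i) * (∑_{i<M'} (lam ^ (p^(c-1))) ^ i)`: the second factor is
`≡ M' mod p`, prime to `p`. The first, `S_k = ∑_{i<p^k} lam ^ i` satisfies: `p ^ (k+1) ∤ S_k`;
induction: `S_(k+1) = S_k * ∑_{i<p} (lam ^ (p^k)) ^ i` and for `w ≡ 1 mod p` (`w = 1 + p x`)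
`∑_{i<p} w ^ i ≡ p + p x p (p-1)/2 ≡ p mod p ^ 2` (`p` odd); or use
`Int.emultiplicity_pow_sub_pow` with `lam ≠ 1` (`lam = 1` is trivial). -/
def NUMStmt : Prop :=
  ∀ (p c M' : ℕ) (lam e u : ℤ), p.Prime → p ≠ 2 → 1 ≤ c → ¬ p ∣ M' → ¬ (p : ℤ) ∣ u →
    (p : ℤ) ∣ lam - 1 →
    ¬ ((p ^ c : ℕ) : ℤ) ∣ e * (lam ^ (p ^ (c - 1) * M') - 1) +
      u * ∑ i ∈ Finset.range (p ^ (c - 1) * M'), lam ^ i

/-! ## The base theorem -/

/-- Row UN2 (about 100 lines; model `H81/ENG/Unip.lean`, theorem `unip`; use `lin_part`).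
Proof. Suppose `p ^ (μ+1) ∤ d`. `lin_part` with `z := v` gives `a : N →* N` with
`(ef S)^[r] (n * ξ) = a n * (ef S)^[r] ξ` and `a v = 1`. Put `Φ x = S⁻¹ ((ef S)^[r] x)`; then
`Φ (n * ξ) = φ n * ξ`, `φ n = a' n * u₀`, `a' = S⁻¹ ∘ a`, `u₀ = S⁻¹ ((ef S)^[r] ξ) * ξ⁻¹ ∈ N`, and
`a' v = 1`. The hypothesis gives `m, t`; for `n₁ = φ^[t] 1` and `x = n₁ * ξ` one has `Φ^[K] x = x`,
`K = m * p ^ μ`. As `Φ^[k] x = (S ^ (-k)) ((ef S)^[r * k] x)` we get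
`(ef S)^[r * K] x = (S ^ K) x`; by `ef_iter_mul`, `(ef S)^[r * K * i] x = (S ^ (K * i)) x` for all
`i`; with `i = p` and `S ^ (p ^ (μ+1)) = 1` the point `x` is periodic, so `(ef S)^[d] x = x`
(`L.periodic`). `d ≠ 0`, write `d = p ^ w * r'`, `p ∤ r'`, `w ≤ μ`. Then `d ∣ r * K * r'`, so
`(S ^ (K * r')) x = x`, `K * r' = p ^ μ * (m * r')` and `p ∤ m * r'`: contradiction to the last
hypothesis. -/
def UN2Stmt : Prop :=
  ∀ (B : Type) [Group B] (S : MulAut B) (N : Subgroup B) [N.Normal] (p μ : ℕ), p.Prime →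
    (∀ a ∈ N, ∀ b ∈ N, a * b = b * a) → (∀ a ∈ N, S a ∈ N) → (∀ a ∈ N, S⁻¹ a ∈ N) →
    S ^ (p ^ (μ + 1)) = 1 → ∀ (v : B) (hv : v ∈ N), v ≠ 1 → S v = v →
    (∀ (a : N →* N) (u : N), a ⟨v, hv⟩ = 1 → ∃ m t : ℕ, ¬ p ∣ m ∧
      ∀ n, (fun n => a n * u)^[t + m * p ^ μ] n = (fun n => a n * u)^[t] n) →
    ∀ (ξ : B) (r : ℕ), 0 < r → (ef S)^[r] ξ * (S ξ)⁻¹ ∈ N →
    (∀ n ∈ N, ∀ M : ℕ, ¬ p ∣ M → (S ^ (p ^ μ * M)) (n * ξ) ≠ n * ξ) →
    ∀ d : ℕ, L S d → p ^ (μ + 1) ∣ d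

/-- Row CYB (about 200 lines; needs AFF, NUM, UN2; model `H81/ENG/BaseThm.lean`, `Base.main`).
Proof. `N0 = zpowers s` is normal in `P` (`n s n⁻¹ ∈ N0` and `P` is generated by `s, n`; `n ^ r = 1`)
and `τ`-invariant; `θ : P → P ⧸ N0`; `θ (τ x) = θ x` for all `x` (true for `s`, `n`). `τ ^ (p ^ c) = 1`:
`(τ ^ M) s = s ^ (lam ^ M)` and `(τ ^ M) n = s ^ (u * ∑_{i<M} lam ^ i) * n`; for `M = p ^ c` the
exponents are `≡ 1` and `≡ 0 mod p ^ c` (`lam ≡ 1 mod p`). Put `k = p ^ b`, `B = TSq τ k`,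
`S = tsh τ k`: `(S ^ k) x = τ ∘ x`, so `S ^ (p ^ (b + c)) = 1`; `μ = b + c - 1`.
`N = {x ∈ B | ∀ i, x i ∈ N0}` is a normal abelian subgroup, and
`N ≃ (Fin k → ZMod (p ^ c))`, `x ↦` exponents of `x 0, .., x (k-1)` with respect to `s`
(a sequence in `N` is determined by these values, which are arbitrary since
`x (i + k) = τ (x i) = (x i) ^ lam`). `v` = the constant sequence `s ^ (p ^ (c-1)) ≠ 1`: it is in
`TSq` because `lam ≡ 1 mod p`, and `S v = v`. AFF (transported along the isomorphism) gives the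
hypothesis of UN2 on affine maps. `root_seq` (`p`, `q := r`, `μ := b`, `2 < p ^ b` as `p ≥ 3`,
`b ≥ 1`) gives `a : ℤ → ZMod r`, `a 0 = 1`, period `k`, and `f^j a = shift a` for the difference
operator, or the same with the inverse shift. Model sequence
`ξ i = (τ ^ (i / k)) (n ^ (a (i % k)).val)` (`∈ TSq τ k`), `θ (ξ i) = pw (θ n) (a i)`. As in
`Base.main` (`rel_iter`, `rel_iter_inv`) `(ef S)^[j] ξ * (S ξ)⁻¹ ∈ N` (or the same for `S⁻¹`: then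
apply UN2 to `S⁻¹` and `hL.2`). Fixed points: let `x = y * ξ`, `y ∈ N`, and
`(S ^ (p ^ μ * M)) x = x`, `p ∤ M`; since `p ^ μ = k * p ^ (c-1)`, at `i = 0`:
`(τ ^ (p ^ (c-1) * M)) (s ^ e * n) = s ^ e * n` (`ξ 0 = n` as `a 0 = 1`), that is
`p ^ c ∣ e * (lam ^ M₁ - 1) + u * ∑_{i<M₁} lam ^ i`, `M₁ = p ^ (c-1) * M`: contradiction to NUM.
(For `S⁻¹` take inverses.) -/
def CYBStmt : Prop :=
  ∀ (P : Type) [Group P] (p r b c lam j u : ℕ) (s n : P) (τ : MulAut P), p.Prime → p ≠ 2 →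
    r.Prime → r ≠ p → 1 ≤ b → 1 ≤ c → orderOf s = p ^ c → Subgroup.closure {s, n} = ⊤ →
    n ^ r = 1 → n * s * n⁻¹ = s ^ j → ¬ j ≡ 1 [MOD p] → τ s = s ^ lam → lam ≡ 1 [MOD p] →
    τ n = s ^ u * n → ¬ p ∣ u → ∀ d : ℕ, SL (tsh τ (p ^ b)) d → p ^ (b + c) ∣ d

/-- Row QTL (about 60 lines): transfer of laws to invariant sections. Proof: let
`R = {η ∈ TSq σ k | ∀ i, η i ∈ Γ}`, a shift-invariant subgroup; `SL` passes from `TSq σ k` to `R`
(`SL.of_inj`) and from `R` to `TSq τ k` along the surjective equivariant homomorphism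
`η ↦ (i ↦ π (η i))` (`L.of_surj` for the shift and its inverse). Surjective: given `ζ ∈ TSq τ k`
choose `w i ∈ Γ` with `π (w i) = ζ i` for `0 ≤ i < k` and put `η i = (σ ^ (i / k)) (w (i % k))`
(integer division; `ζ i = (τ ^ (i / k)) (ζ (i % k))`). -/
def QTLStmt : Prop :=
  ∀ (T P : Type) [Group T] [Group P] (σ : MulAut T) (τ : MulAut P) (Γ : Subgroup T)
    (hΓ : ∀ x, x ∈ Γ ↔ σ x ∈ Γ) (π : Γ →* P), Function.Surjective π →
    (∀ x : Γ, π ⟨σ x, (hΓ x).1 x.2⟩ = τ (π x)) → ∀ k d : ℕ, 0 < k →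
    SL (tsh σ k) d → SL (tsh τ k) d

/-- Row COP (about 50 lines). `P` a finite `p'`-group. Proof: `B = TSq τ (p ^ b)` is a finite group
of order `(card P) ^ (p ^ b)` (a sequence is determined by its values at `0, .., p ^ b - 1`, which
are arbitrary), prime to `p`. `S = tsh τ (p ^ b)`, `(S ^ (p ^ b)) x = τ ∘ x`, so
`S ^ (p ^ (b + N)) = 1`. If `p ^ (b + m + 1) ∤ ed d` then `coprime_fix` (with `v = b + m`) gives
`S ^ (p ^ (b + m)) = 1`, that is `(τ ^ (p ^ m)) (x i) = x i` for all `x ∈ B`, and `x 0` is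
arbitrary: contradiction. -/
def COPStmt : Prop :=
  ∀ (P : Type) [Group P] [Finite P] (p b m N : ℕ) (τ : MulAut P), p.Prime → ¬ p ∣ Nat.card P →
    τ ^ (p ^ N) = 1 → τ ^ (p ^ m) ≠ 1 → ∀ d : ℕ, SL (tsh τ (p ^ b)) d → p ^ (b + m + 1) ∣ ed d

/-- Row SEC (about 50 lines; needs QTL, COP). Proof: `P = Γ ⧸ D.subgroupOf Γ` (normal), finite of
order `D.relIndex Γ`, with the automorphism `τ` induced by `σ`. -/
def SECStmt : Prop :=
  ∀ (T : Type) [Group T] (p m N : ℕ) (σ : MulAut T), p.Prime → σ ^ (p ^ N) = 1 → Sec p m σ →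
    ∀ b : ℕ, Wr p σ b m

/-- Row CYP (about 90 lines): preparation of the data. Proof: let `o` be the order of `j` modulo `p`
(`p ∤ j` because `n s n⁻¹` has order `p ^ c`, `1 ≤ c`), `o > 1`, `o ∣ p - 1`; `r` a prime divisor
of `o`; `e = (o / r) * p ^ c`; `n₁ = n ^ e`. Then `n₁ s n₁⁻¹ = s ^ (j ^ e)`, `j₁ = j ^ e`;
`j₁ ≡ j ^ (o/r) mod p` has order `r` modulo `p`, so `j₁ ≢ 1 mod p`; `j₁ ^ r = (j ^ o) ^ (p ^ c) ≡ 1
mod p ^ c`, so `n₁ ^ r` commutes with `s`. `σ n₁ = (s ^ u n) ^ e = s ^ (u [e]) n₁` with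
`[e] = ∑_{i<e} j ^ i` (induction on `e`), and `[e] (j - 1) = j ^ e - 1` is prime to `p`, so
`p ∤ u₁ = u [e]`. `σ (n₁ ^ r) = s ^ (u₁ ∑_{i<r} j₁ ^ i) n₁ ^ r = n₁ ^ r` since
`(j₁ - 1) ∑_{i<r} j₁ ^ i = j₁ ^ r - 1 ≡ 0 mod p ^ c` and `p ∤ j₁ - 1`. -/
def CYPStmt : Prop :=
  ∀ (T : Type) [Group T] (p c : ℕ) (σ : MulAut T), p.Prime → 1 ≤ c → Cyc p c σ →
    ∃ (s n : T) (lam j u r : ℕ), orderOf s = p ^ c ∧ σ s = s ^ lam ∧ lam ≡ 1 [MOD p] ∧
      n * s * n⁻¹ = s ^ j ∧ ¬ j ≡ 1 [MOD p] ∧ σ n = s ^ u * n ∧ ¬ p ∣ u ∧ r.Prime ∧ r ≠ p ∧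
      n ^ r * s = s * n ^ r ∧ σ (n ^ r) = n ^ r

/-- Row CYR (about 100 lines; needs CYP, QTL, CYB). Proof: take the data of CYP,
`Γ = closure {s, n}` (`σ`-invariant; `T` finite), `K₀ = zpowers (n ^ r)`, central in `Γ` and fixed
by `σ`; `P = Γ ⧸ K₀`, `τ` induced by `σ`, `s̄, n̄` the images; `n̄ ^ r = 1`. The order of `s̄` is
`p ^ c`: otherwise `s ^ (p ^ (c-1)) ∈ K₀` commutes with `n`, but
`n s ^ (p^(c-1)) n⁻¹ = s ^ (p^(c-1) j) ≠ s ^ (p^(c-1))` because `j ≢ 1 mod p`. The other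
relations are clear; apply QTL and CYB. -/
def CYRStmt : Prop :=
  ∀ (T : Type) [Group T] [Finite T] (p b c : ℕ) (σ : MulAut T), p.Prime → p ≠ 2 → 1 ≤ b → 1 ≤ c →
    Cyc p c σ → ∀ d : ℕ, SL (tsh σ (p ^ b)) d → p ^ (b + c) ∣ d

/-! ## Components -/

/-- Row PRD (about 120 lines; model `H81/ENG/Prod.lean`, `prod_law`, and the beginning of
`H81/ENG/CompCase.lean`, `comp_case`, for `hcommT`). `y ^ k` normalises `S`, no `y ^ i`, `0 < i < k`,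
does. Proof: `Dich S` gives that `y ^ i S y ^ -i` and `y ^ j S y ^ -j` commute elementwise for
`i ≠ j < k`. `Θ : TSq α k →* G`, `Θ ξ = pr (fun i => y ^ i * ξ i * (y ^ i)⁻¹) k`, is an injective
homomorphism with `Θ (tsh α k ξ) = y⁻¹ * Θ ξ * y` (because `ξ k = α (ξ 0) = (y ^ k)⁻¹ (ξ 0) (y ^ k)`),
so `SL.of_inj` applies. The proof of `prod_law` can be copied with `Ψ = id`. -/
def PRDStmt : Prop :=
  ∀ (G : Type) [Group G] (y : G) (S : Subgroup G) (k : ℕ), 0 < k → Dich S →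
    (∀ t ∈ S, (∀ s ∈ S, s * t = t * s) → t = 1) →
    (∀ t, t ∈ S ↔ y ^ k * t * (y ^ k)⁻¹ ∈ S) →
    (∀ i, 0 < i → i < k → ¬ ∀ t, t ∈ S ↔ y ^ i * t * (y ^ i)⁻¹ ∈ S) →
    ∀ α : MulAut S, (∀ t : S, ((α t : S) : G) = (y ^ k)⁻¹ * t * y ^ k) →
    ∀ d : ℕ, SL (MulAut.conj y⁻¹) d → SL (tsh α k) d

/-- Row CHG (about 90 lines): `y` may be replaced by `y * t`, `t ∈ S`. Proof: let
`K = normalizer S`. For every `l ≥ 0`: `w_l = (y ^ l)⁻¹ * t * y ^ l ∈ K`, and it commutes with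
`S` if `0 < l < k` (`Dich S` for `g = (y ^ l)⁻¹`, which does not normalise `S`); for `l = 0` it is
in `S`; `(y * t) ^ i = y ^ i * (w_(i-1) * ... * w_1 * w_0)` by induction. So for `0 < i < k`,
`(y t) ^ i ∈ K` would give `y ^ i ∈ K`. For `i = k`: `(y t) ^ k = y ^ k * C * t` where `C`
(a product of elements commuting with `S`) commutes with `S`; hence
`((y t)^k)⁻¹ x (y t)^k = t⁻¹ C⁻¹ ((y^k)⁻¹ x y^k) C t = t⁻¹ ((y^k)⁻¹ x y^k) t` for `x ∈ S`. -/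
def CHGStmt : Prop :=
  ∀ (G : Type) [Group G] (y t : G) (S : Subgroup G) (k : ℕ), 0 < k → Dich S → t ∈ S →
    (∀ x, x ∈ S ↔ y ^ k * x * (y ^ k)⁻¹ ∈ S) →
    (∀ i, 0 < i → i < k → ¬ ∀ x, x ∈ S ↔ y ^ i * x * (y ^ i)⁻¹ ∈ S) →
    (∀ x, x ∈ S ↔ (y * t) ^ k * x * ((y * t) ^ k)⁻¹ ∈ S) ∧
    (∀ i, 0 < i → i < k → ¬ ∀ x, x ∈ S ↔ (y * t) ^ i * x * ((y * t) ^ i)⁻¹ ∈ S) ∧
    ∀ x ∈ S, ((y * t) ^ k)⁻¹ * x * (y * t) ^ k = t⁻¹ * ((y ^ k)⁻¹ * x * y ^ k) * t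

/-- Row TRV (about 50 lines; needs QTL, COP or `coprime_fix` directly). `T` is simple nonabelian,
hence not a `p`-group: it has an element `x` of prime order `q ≠ p` (Cauchy). For `b = 0` nothing
to prove. For `b ≥ 1`: `B = TSq 1 (p ^ b)` contains the `x`-power valued sequences, a group
of order `q ^ (p ^ b)` on which the shift `S` has order `p ^ b` (`S ^ (p ^ (b-1)) ≠ 1`: take the
sequence with value `x` at the multiples of `p ^ b` and `1` elsewhere); `coprime_fix` with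
`v = b - 1`. -/
def TRVStmt : Prop :=
  ∀ (T : Type) [Group T] [Finite T] (p b : ℕ), p.Prime → IsSimpleGroup T →
    (¬ ∀ a c : T, a * c = c * a) → ∀ d : ℕ, SL (tsh (1 : MulAut T) (p ^ b)) d → p ^ b ∣ ed d

/-- Row CPC (about 150 lines; needs PRD, CHG, SEC, CYR, TRV; model `H81/ENG/CompCase.lean`,
`comp_case`). Proof. `K` = normaliser of `S`, `b` minimal with `y ^ (p ^ b) ∈ K`, `k = p ^ b`
(no `y ^ i`, `0 < i < k`, is in `K`). `α` = conjugation by `(y ^ k)⁻¹` on `S`, `α ^ (p ^ N) = 1`.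
Let `c₀` be minimal with `α ^ (p ^ c₀) = 1`. CLAIM: `p ^ (b + c₀) ∣ ed d`. Then `b + c₀ ≤ v` and
`y ^ (p ^ v) = (y ^ k) ^ (p ^ (v - b))` centralises `S`. Proof of the claim: `GLaw.sl` and PRD give
`SL (tsh α k) d`. If `c₀ = 0` use TRV (`α = 1`). If `c₀ = m + 1` apply `Good p S` (transported from
`T`: row GIS) to `α, N, m` (`α ^ (p ^ m) ≠ 1`). (1) `Sec`: SEC. (3) `Wr`: immediate. (2)
`t, c`, `m + 1 ≤ c`, `Cyc p c (conj t * α)`, and the law: if `b = 0` then `k = 1`, `GLaw G d`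
restricts to `GLaw S d`, so `p ^ (m + 1) ∣ ed d`. If `b ≥ 1`: CHG with `y₁ = y * t⁻¹`
(the element `t⁻¹ ∈ S`): conjugation by `(y₁ ^ k)⁻¹` on `S` is `conj t * α`; PRD for `y₁` and
`hL.sl y₁` give `SL (tsh (conj t * α) k) d`; CYR gives `p ^ (b + c) ∣ d`, and `d ∣ ed d`.
(`p ≠ 2` in this case: for `p = 2` every `j` with `orderOf (s ^ j) = orderOf s` is odd, so
`j ≡ 1 mod 2` and `Cyc` is impossible.) -/
def CPCStmt : Prop :=
  ∀ (p : ℕ) (T : Type) [Group T] [Finite T], p.Prime → Good p T → CompProp p T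

/-- Row GIS (about 50 lines): `Good` is invariant under isomorphisms. -/
def GISStmt : Prop :=
  ∀ (p : ℕ) (T T' : Type) [Group T] [Group T'], (T ≃* T') → Good p T → Good p T'

/-- Row OPG (about 250 lines, but a copy of `H81/ENG/Main.lean`, `op_main`, with `PFactors`
replaced by `CFactors`; only the last case, the nonabelian one, changes: there `CompProp` is applied
to the component). -/
def OPGStmt : Prop :=
  ∀ (p : ℕ) (G : Type) [Group G] [Finite G], p.Prime → CFactors G p → ∀ d : ℕ, GLaw G d →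
    ∀ (y : G) (N : ℕ), y ^ (p ^ N) = 1 → ∀ v : ℕ, ¬ p ^ (v + 1) ∣ ed d →
      ∃ P : Subgroup G, P.Normal ∧ IsPGroup p P ∧ y ^ (p ^ v) ∈ P

/-- Row PIG (about 40 lines; needs OPG; copy of `H81/ENG/PiPart.lean`). -/
def PIGStmt : Prop :=
  ∀ (G : Type) [Group G] [Finite G] (π : Set ℕ), (∀ p ∈ π, p.Prime ∧ CFactors G p) → ∀ d : ℕ,
    GLaw G d → ∃ n : ℕ, 0 < n ∧ (∀ p ∈ π, ¬ p ∣ n) ∧ ∀ g : G, g ^ (ed d * n) ∈ Fit G

/-- Row CAL (about 30 lines): alternating groups. Proof: `H81.ENG.comp_case` with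
`Pool.ENG81.comb`, `Pool.ENG81.aut_alt_odd`, `Pool.ENG81.aut_alt` as in `H81/ENG/PiPart.lean`. -/
def CALStmt : Prop :=
  ∀ (p n : ℕ), p.Prime → 5 ≤ n → (p = 2 → n ≠ 6) → CompProp p (alternatingGroup (Fin n))

/-- Row BRD (about 50 lines): braid pairs. Proof: `s = conj a⁻¹`, `x = b⁻¹ a`. The braid relation
gives `b a⁻¹ b⁻¹ = a⁻¹ b⁻¹ a`, hence `x⁻¹ a⁻¹ x a = a⁻² x a²`, that is `ef s x = (s ^ 2) x`; by
`ef_iter_mul` (with `i = 2`, `j = 1`) `(ef s)^[n] x = (s ^ (2 n)) x` for all `n`, `x` is periodic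
(`a` has finite order) and `(ef s)^[d] x = x` (`L.periodic`, `GLaw.sl`), so `a ^ (2 d)` commutes
with `x`, hence with `b`, so `m ∣ 2 d`, `m ∣ d`. -/
def BRDStmt : Prop :=
  ∀ (T : Type) [Group T] [Finite T] (a b : T) (m : ℕ), Odd m → a * b * a = b * a * b →
    (∀ n : ℕ, a ^ n * b = b * a ^ n → m ∣ n) → ∀ d : ℕ, GLaw T d → m ∣ d

/-- Row REA (about 60 lines): the reduction theorem in the real case. Proof: let `σ = conj t₀`,
`σ ^ (p ^ m) ≠ 1`, `σ ^ (p ^ N) = 1`. Then `t₀ ^ (p ^ N)` is central; write `t₀ = t₁ t₂` with `t₁`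
of `p`-power order and `t₂` of order prime to `p`, both powers of `t₀`; `conj t₂` has order prime
to `p` and `p`-power order, so it is trivial and `σ = conj t₁`; `t₁ ^ (p ^ c) = 1` and
`t₁ ^ (p ^ m) ≠ 1` give `m + 1 ≤ c`. Second disjunct of `Good` with `t = z⁻¹ * t₁⁻¹`:
`conj t * σ = conj z⁻¹`, `s = z`, `n = g`, `lam = 1`, `u = j + p ^ c - 1`:
`z⁻¹ g z = z⁻¹ (g z g⁻¹) g = z ^ (j - 1) g`, `p ∤ j - 1`. -/
def REAStmt : Prop :=
  ∀ (T : Type) [Group T] [Finite T] (p c j : ℕ) (z g : T), p.Prime →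
    (∀ σ : MulAut T, (∃ N : ℕ, σ ^ (p ^ N) = 1) → ∃ t : T, σ = MulAut.conj t) →
    (∀ (t : T) (N : ℕ), t ^ (p ^ N) = 1 → t ^ (p ^ c) = 1) → orderOf z = p ^ c →
    g * z * g⁻¹ = z ^ j → ¬ j ≡ 1 [MOD p] → (∀ d : ℕ, GLaw T d → p ^ c ∣ ed d) → Good p T

/-- Row INV (about 150 lines): involutory automorphisms. Proof: for `t ∈ T` put `u_t = t⁻¹ σ(t)`;
`σ (u_t) = u_t⁻¹`. If some `u_t` is not a `2`-element, a suitable power `x ≠ 1` has odd order;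
`Γ = zpowers x`, `D = ⊥` (and `m = 0`, as `σ ^ 2 = 1`): `σ x * x⁻¹ = x⁻² ≠ 1`. Otherwise the
theorem of Baer and Suzuki for involutions applies to `σ` in `G = T ⋊ ⟨σ⟩` (or in `MulAut T`, using
`conj` and that `T` is centerless): all `⟨σ, σ^g⟩`, `g ∈ conj T`, are `2`-groups (dihedral,
generated by two involutions whose product is conjugate to `conj u_t`), so `σ` lies in a normal
`2`-subgroup `O` of `G = (conj T) ⟨σ⟩`; `O ∩ conj T` is a normal `2`-subgroup of the simple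
nonabelian group, so trivial, and `[σ, conj T] ≤ O ∩ conj T = 1`, so `σ = 1`.
Baer-Suzuki (Alperin-Lyons): `C` a conjugacy class (or a normal set) of involutions, any two
generate a 2-group; if `⟨C⟩` is not a `2`-group choose Sylow `2`-subgroups `P ≠ Q` with
`C ∩ P ≠ C ∩ Q` and `|C ∩ P ∩ Q|` maximal, `D = ⟨C ∩ P ∩ Q⟩`; (all `C ∩ P` have the same size)
there is `x ∈ C ∩ P`, `x ∉ Q`, normalising `D` [take a chain of subgroups from `D` to `⟨C ∩ P⟩`,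
each normal in the next, and the first member containing an element of `C` outside `D`] and
similarly `y ∈ C ∩ Q`, `y ∉ P`; then `D ⟨x, y⟩` is a `2`-group, in a Sylow subgroup `R`, and
`C ∩ P ∩ R`, `C ∩ Q ∩ R` are larger, so `C ∩ P = C ∩ R = C ∩ Q`, contradiction. -/
def INVStmt : Prop :=
  ∀ (T : Type) [Group T] [Finite T] (σ : MulAut T), IsSimpleGroup T →
    (¬ ∀ a c : T, a * c = c * a) → σ ^ 2 = 1 → σ ≠ 1 → Sec 2 0 σ

end Pool.ENR
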