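import Pool.Agent.H29.ENR.Stmts9

/-!
# Board enr, part 10: automorphisms of order `p` and the normaliser of a Sylow subgroup
-/

set_option autoImplicit false

namespace Pool.ENR

open Pool.Agent.H81.ENG

/-- Row OUT (about 170 lines; needs FXY (`r = p`)). Proof: FXY gives a `σ`-invariant Sylow
`p`-subgroup `P`; all Sylow subgroups are conjugate, so some `n` with `n ^ k = 1`, `p ∤ k`,
normalises `P` and does not centralise it. Let `Γ = normalizer P` (`σ`-invariant). If
`σ y * y⁻¹ ∉ P` for some `y ∈ Γ`: `Sec p 0 σ` with `Γ`, `D = P` (the relative index is prime to `p`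
because `P` is Sylow; `σ y ∉ P y`). Otherwise `σ y ∈ P y` for all `y ∈ Γ`, in particular
`σ n * n⁻¹ ∈ P`. Define `P 0 = P` and `P (i+1)` = the subgroup generated by the
`x * y * x⁻¹ * y⁻¹` (`x ∈ P i`, `y ∈ P`) and the `σ x * x⁻¹` (`x ∈ P i`). By induction `P (i+1) ≤ P i`,
`P i` is normalised by `P`, by `σ` and by `n` (`n (σ x) n⁻¹ = w (σ (n x n⁻¹)) w⁻¹` with
`w = n * (σ n)⁻¹ ∈ P`). `P (i+1) < P i` if `P i ≠ ⊥`: the `p`-group generated by the inner
automorphisms of elements of `P` and `σ` (restricted to `P`; it is a `p`-group since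
`{conj y * σ ^ i}`) acts on the `p`-group `P i`; take an index `p` subgroup of `P i` invariant under
it and normal in `P i` (a maximal subgroup fixed by the `p`-group: the number of subgroups of index
`p` is `≡ 1 mod p`; or: `IsPGroup` acting on the characters; or use that `P ⋊ ⟨σ⟩` is a `p`-group,
hence nilpotent, and `P i` is contained in the `i`-th term of its lower central series). So
`P r = ⊥` for some `r`. As in row SER (`H16/ENR/SER.lean`) there is `i` and `x ∈ P i` with
`n x n⁻¹ x⁻¹ ∉ P (i+1)` (otherwise `n` centralises `P`). `Gal2 p 1 σ` with `t = 1`, `A = P i`,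
`D = P (i+1)`, `lam = 1`. -/
def OUTStmt : Prop :=
  ∀ (T : Type) [Group T] [Finite T] (p N : ℕ) [Fact p.Prime] (σ : MulAut T),
    σ ^ (p ^ N) = 1 → (∃ (P : Sylow p T) (n : T) (k : ℕ), n ^ k = 1 ∧ ¬ p ∣ k ∧
      (∀ x, x ∈ P ↔ n * x * n⁻¹ ∈ P) ∧ ∃ x ∈ P, n * x ≠ x * n) →
    σ ≠ 1 → Sec p 0 σ ∨ Gal2 p 1 σ

end Pool.ENR
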