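import Pool.Agent.H29.ENR.Stmts

/-!
# Board enr, second part: abelian Sylow `p`-subgroups (`p` odd)

The base theorem over finite local rings with maximal ideal `(p)` (Galois rings), the module theory
which finds them in an abelian `p`-subgroup with a `p'`-automorphism, transfer, and the reduction
theorem for simple groups with abelian Sylow `p`-subgroups.
-/

set_option autoImplicit false

namespace Pool.ENR

open Pool.Agent.H81.ENG

/-- `R` is a finite local ring with maximal ideal `(p)`, `p ^ c = 0`, `p ^ (c-1) ≠ 0`. -/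
def GRing (R : Type) [CommRing R] (p c : ℕ) : Prop :=
  Finite R ∧ (p : R) ^ c = 0 ∧ (p : R) ^ (c - 1) ≠ 0 ∧ ∀ x : R, IsUnit x ∨ ∃ y : R, x = p * y

/-- Row FLG (about 70 lines; like FLD, `H62/ENR/FLD.lean`, with `F` in place of `ZMod p`). Proof:
with `q = card F` every irreducible factor `π` of degree `i ≤ n = f.natDegree` divides
`X * (X ^ m - 1)`, `m = ∏_{i=1}^{n} (q ^ i - 1)` (`q` is a power of `p`, so `p ∤ m`): the field
`F[X] ⧸ π` has `q ^ i` elements. Then `f ∣ (X * (X ^ m - 1)) ^ n` by induction on the degree. -/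
def FLGStmt : Prop :=
  ∀ (F : Type) [Field F] [Finite F] (p : ℕ) [Fact p.Prime] [CharP F p] (f : Polynomial F),
    f.Monic → ∃ m : ℕ, ¬ p ∣ m ∧ f ∣ (Polynomial.X * (Polynomial.X ^ m - 1)) ^ f.natDegree

/-- Row LIR (about 50 lines): LIF in a noncommutative ring. Proof: induction, claim for `i`: there
are `t, y` with `x ^ t * (x ^ (m * p ^ i) - 1) = p ^ (i + 1) * y`. Step: `W = x ^ (m * p ^ i)`,
`x ^ t * (W - 1) = p ^ (i+1) * y`. There is `G` (a polynomial in `W`) with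
`∑_{j<p} W ^ j = p + (W - 1) * G` and `W ^ p - 1 = (W - 1) * ∑_{j<p} W ^ j`
(`mul_geom_sum`), everything commuting with `x`. So
`x ^ (2 t) * (W ^ p - 1) = (x ^ t * (W - 1)) * (p * x ^ t + x ^ t * (W - 1) * G)
= p ^ (i+1) * y * (p * x ^ t + p ^ (i+1) * y * G)`, a left multiple of `p ^ (i+2)` (`p` is
central). For `i = c - 1` use `(p : B) ^ c = 0`. -/
def LIRStmt : Prop :=
  ∀ (B : Type) [Ring B] (p c : ℕ) (x : B) (t m : ℕ), p.Prime → 1 ≤ c → (p : B) ^ c = 0 →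
    (∃ y : B, x ^ t * (x ^ m - 1) = p * y) → ∃ t' : ℕ, x ^ (t' + m * p ^ (c - 1)) = x ^ t'

/-- Row AFG (about 130 lines; needs FLG, LIR; like `H53/ENR/CHP.lean` and `H89/ENR/AFF.lean`).
Proof: over the index type `n = Fin (p ^ b) ⊕ Unit` let
`M = Matrix.fromBlocks (LinearMap.toMatrix' A) (column u) 0 1`: `M *ᵥ (v, 1) = (A v + u, 1)` and
`M *ᵥ (z, 0) = 0`, so `det M` is not a unit, hence a multiple of `p`. Let `F = R ⧸ span {p}`, a
finite field of characteristic `p` (every element of `R` is a unit or a multiple of `p`; `1` is not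
a multiple of `p` since `p ^ (c-1) ≠ 0 = p ^ c`), `M'` the image of `M` over `F`: `det M' = 0`, so
`M'.charpoly = X * g` with `g` monic of degree `p ^ b`; FLG: `g` divides
`(X * (X ^ m - 1)) ^ (p ^ b) = X ^ (p ^ b) * (X ^ (m * p ^ b) - 1)` (`sub_pow_char_pow`). By
Cayley-Hamilton `M' ^ (p ^ b + 1) * (M' ^ (m * p ^ b) - 1) = 0`, so all entries of
`M ^ (p ^ b + 1) * (M ^ (m * p ^ b) - 1)` are multiples of `p`; LIR in `Matrix n n R` gives
`M ^ (t + m * p ^ b * p ^ (c-1)) = M ^ t`; apply this to `(v, 1)`. -/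
def AFGStmt : Prop :=
  ∀ (R : Type) [CommRing R] (p b c : ℕ) [Fact p.Prime], 1 ≤ c → GRing R p c →
    ∀ (A : (Fin (p ^ b) → R) →ₗ[R] (Fin (p ^ b) → R)) (u z : Fin (p ^ b) → R), z ≠ 0 → A z = 0 →
      ∃ m t : ℕ, ¬ p ∣ m ∧
        ∀ v, (fun v => A v + u)^[t + m * p ^ (b + c - 1)] v = (fun v => A v + u)^[t] v

/-- Row UN3 (about 130 lines): UN2 with operators `ψ i` which commute with `S` and with the
conjugations by elements of `B`; the hypothesis on affine maps is only assumed for maps `a`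
commuting with all `ψ i`. Proof: as UN2; the map `a` given by `lin_part` (`H81/ENG/Unip.lean`;
redo its induction) is composed of `S` and conjugations, so it commutes with the `ψ i`. -/
def UN3Stmt : Prop :=
  ∀ (B : Type) [Group B] (S : MulAut B) (N : Subgroup B) [N.Normal] (p μ : ℕ) (ι : Type)
    (ψ : ι → N →* N), p.Prime →
    (∀ a ∈ N, ∀ b ∈ N, a * b = b * a) → (∀ a ∈ N, S a ∈ N) → (∀ a ∈ N, S⁻¹ a ∈ N) →
    S ^ (p ^ (μ + 1)) = 1 →
    (∀ (i : ι) (x y : N), (y : B) = S x → ((ψ i y : N) : B) = S (ψ i x : N)) →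
    (∀ (i : ι) (g : B) (x y : N), (y : B) = g * x * g⁻¹ →
      ((ψ i y : N) : B) = g * (ψ i x : N) * g⁻¹) →
    ∀ (v : B) (hv : v ∈ N), v ≠ 1 → S v = v →
    (∀ (a : N →* N) (u : N), a ⟨v, hv⟩ = 1 → (∀ i x, a (ψ i x) = ψ i (a x)) → ∃ m t : ℕ, ¬ p ∣ m ∧
      ∀ n, (fun n => a n * u)^[t + m * p ^ μ] n = (fun n => a n * u)^[t] n) →
    ∀ (ξ : B) (r : ℕ), 0 < r → (ef S)^[r] ξ * (S ξ)⁻¹ ∈ N →
    (∀ n ∈ N, ∀ M : ℕ, ¬ p ∣ M → (S ^ (p ^ μ * M)) (n * ξ) ≠ n * ξ) →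
    ∀ d : ℕ, L S d → p ^ (μ + 1) ∣ d

/-- Row GRB (about 200 lines; needs AFG, UN3; same structure as row CYB). The group
`P = e(R) <n>`, `n ^ r = 1`, `n e(y) n⁻¹ = e(ζ y)`, `τ` trivial on `e(R)` and `τ n = e(u) n`.
Proof: `N0 = range e`; `θ : P → P ⧸ N0`, `θ (τ x) = θ x`; `(τ ^ M) n = e (M u) n`, so
`τ ^ (p ^ c) = 1`. `k = p ^ b`, `B = TSq τ k`, `S = tsh τ k`, `(S ^ k) x = τ ∘ x`,
`S ^ (p ^ (b + c)) = 1`, `μ = b + c - 1`. `N = {x ∈ B | ∀ i, x i ∈ N0} ≃ (Fin k → R)` (such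
sequences have period `k` because `τ` is trivial on `N0`); operators `ψ y` (`y : R`):
multiplication of all coordinates by `y`; they commute with `S` and with conjugations (the element
`e(x) n ^ i` acts on `N0` as multiplication by `ζ ^ i`). `v` = the constant sequence `e (1)`
(`≠ 1`, `S v = v`). A map `a` commuting with all `ψ y` is `R`-linear: AFG gives the hypothesis of
UN3. Model sequence, `root_seq` (`2 < p ^ b`) and UN3 for `S` or `S⁻¹` as in CYB. Fixed points: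
`(S ^ (p ^ μ * M)) (y * ξ) = y * ξ`, `p ^ μ * M = k * (p ^ (c-1) * M)`, at `i = 0`:
`e (y₀) * e (p ^ (c-1) * M * u) * n = e (y₀) * n`, so `p ^ (c-1) * M * u = 0` in `R`; but `u` and
`M` (`p ∤ M`) are units and `p ^ (c-1) ≠ 0`. -/
def GRBStmt : Prop :=
  ∀ (P : Type) [Group P] (R : Type) [CommRing R] (p r b c : ℕ) (e : Multiplicative R →* P)
    (ζ u : R) (n : P) (τ : MulAut P), p.Prime → p ≠ 2 → r.Prime → r ≠ p → 1 ≤ b → 1 ≤ c →
    GRing R p c → Function.Injective e →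
    (∀ x : P, ∃ (y : R) (i : ℕ), x = e (Multiplicative.ofAdd y) * n ^ i) → n ^ r = 1 →
    (∀ y : R, n * e (Multiplicative.ofAdd y) * n⁻¹ = e (Multiplicative.ofAdd (ζ * y))) →
    (∀ y : R, τ (e (Multiplicative.ofAdd y)) = e (Multiplicative.ofAdd y)) →
    τ n = e (Multiplicative.ofAdd u) * n → IsUnit u →
    ∀ d : ℕ, SL (tsh τ (p ^ b)) d → p ^ (b + c) ∣ d

/-- Row MO1 (about 80 lines). `W` a finite vector space over `ZMod p`, `α ^ m = 1`, `p ∤ m`, and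
every nonzero `α`-invariant subspace contains the nonzero vector `w`. Then the minimal polynomial
of `α` is irreducible. Proof: `g = minpoly α` divides `X ^ m - 1`, which is separable
(`Polynomial.separable_X_pow_sub_C` / `X_pow_sub_one_separable_iff`), so `g` is squarefree; `g` is
not a unit because `W ≠ 0`. Let `g = g₁ * g₂`, both not units; `g₁, g₂` are coprime (squarefree),
`ker g₁(α)` and `ker g₂(α)` are invariant, with trivial intersection; `ker g₁(α) ≠ 0` because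
otherwise (`W` finite) `g₁(α)` is invertible and `g₂(α) = 0`, contradicting the minimality;
similarly `ker g₂(α) ≠ 0`. Both contain `w`: contradiction. -/
def MO1Stmt : Prop :=
  ∀ (p : ℕ) [Fact p.Prime] (W : Type) [AddCommGroup W] [Module (ZMod p) W] [Finite W]
    (α : Module.End (ZMod p) W) (m : ℕ) (w : W), ¬ p ∣ m → α ^ m = 1 → w ≠ 0 →
    (∀ U : Submodule (ZMod p) W, U ≠ ⊥ → (∀ x ∈ U, α x ∈ U) → w ∈ U) →
    Irreducible (minpoly (ZMod p) α)

/-- Row MO2 (about 200 lines; needs MO1). `Q` a finite abelian group with an endomorphism `α`,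
`α ^ m = 1`, such that every nonzero `α`-invariant subgroup contains `w`. Proof. Let
`I = {f : ℤ[X] | f(α) z = 0}` (an ideal), `R = ℤ[X] ⧸ I`, `ζ` the class of `X`,
`ε : R →+ Q`, `f ↦ f(α) z`, injective. `z₁ = p ^ (c-1) z`. `R` is finite, `p ^ c = 0`,
`p ^ (c-1) ≠ 0`, `ζ ^ m = 1`.
(1) If `x ∈ R` is a zero divisor, `x y = 0`, `y ≠ 0`, then `x w = 0` (in the sense `x = f(ζ)`,
`f(α) w = 0`): the subgroup `ε (R y)` is nonzero and `α`-invariant, so it contains `w`.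
(2) `W = {x ∈ Q | p x = 0}` with `α`; it contains `z₁ ≠ 0`, and `w` (apply the hypothesis to the
subgroup generated by the `α ^ i z₁`); MO1: the minimal polynomial `g` of `α` on `W` is irreducible.
Lift `g` to `G ∈ ℤ[X]`. `X ^ m - 1 = g h` in `(ZMod p)[X]` and `g ∤ h` (separable); lift `h` to
`H`. `H(α) w ≠ 0`: `a g + b h = 1` gives `b(α) h(α) w = w` (`g(α) = 0` on `W`). So by (1) `H(ζ)` is
not a zero divisor, hence a unit of the finite ring `R`; `G(ζ) H(ζ) = ζ ^ m - 1 + p (..) = p (..)`,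
so `G(ζ) ∈ p R`.
(3) Let `x = f(ζ)`. If `g ∣ f` mod `p` then `f(ζ) ∈ G(ζ) R + p R ⊆ p R`. Otherwise
`a f + b g = 1` mod `p`, so `a(ζ) f(ζ) ∈ 1 + p R`, a unit (`p` is nilpotent): `x` is a unit.
(4) `ζ - 1` is a unit: otherwise `ζ - 1 = p y` and `(α - 1) z₁ = p ^ (c-1) p y(α) z = 0`,
contradiction. -/
def MO2Stmt : Prop :=
  ∀ (Q : Type) [AddCommGroup Q] [Finite Q] (p c m : ℕ) (α : Q →+ Q) (z w : Q), p.Prime → 1 ≤ c →
    ¬ p ∣ m → (∀ x, α^[m] x = x) → w ≠ 0 →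
    (∀ U : AddSubgroup Q, U ≠ ⊥ → (∀ x ∈ U, α x ∈ U) → w ∈ U) →
    p ^ c • z = 0 → α (p ^ (c - 1) • z) ≠ p ^ (c - 1) • z →
    ∃ (R : Type) (_ : CommRing R) (ε : R →+ Q) (ζ : R), GRing R p c ∧ Function.Injective ε ∧
      ε 1 = z ∧ (∀ x, α (ε x) = ε (ζ * x)) ∧ IsUnit (ζ - 1) ∧ ζ ^ m = 1

/-- Row MOD (about 90 lines; needs MO2). Proof: let `w = α z₁ - z₁ ≠ 0`, `z₁ = p ^ (c-1) z`, and
let `D` be maximal among the `α`-invariant subgroups of `A` which do not contain `w` (finite;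
`⊥` is one). `Q = A ⧸ D` with the induced `α`: every nonzero `α`-invariant subgroup of `Q` contains
the image of `w` (its preimage is strictly larger than `D`). Apply MO2; `N` = preimage of the range
of `ε`, `π x = ε⁻¹ (class of x)`. (`α x ∈ N → x ∈ N` because `x = α^[m-1] (α x)`; `m ≥ 1`.) -/
def MODStmt : Prop :=
  ∀ (A : Type) [AddCommGroup A] [Finite A] (p c m : ℕ) (α : A →+ A) (z : A), p.Prime → 1 ≤ c →
    ¬ p ∣ m → (∀ x, α^[m] x = x) → p ^ c • z = 0 → α (p ^ (c - 1) • z) ≠ p ^ (c - 1) • z →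
    ∃ (R : Type) (_ : CommRing R) (N : AddSubgroup A) (π : N →+ R) (ζ : R), GRing R p c ∧
      Function.Surjective π ∧ (∀ x, x ∈ N ↔ α x ∈ N) ∧ (∃ hz : z ∈ N, π ⟨z, hz⟩ = 1) ∧
      (∀ x y : N, (y : A) = α x → π y = ζ * π x) ∧ IsUnit (ζ - 1) ∧ ζ ^ m = 1

/-- Row GSE (about 220 lines; needs QTL, GRB, MOD). `A` an abelian `p`-subgroup of the finite group
`T` normalised by `n`, `n ^ m = 1`, `p ∤ m`, `z ∈ A`, and `n` does not commute with
`z ^ (p ^ (c-1))`. Proof: MOD for `Additive A`, `α` = conjugation by `n`: `R, N, π, ζ`. Let `o` be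
the order of `ζ` (`ζ ^ m = 1`; `o ∣ m`, `o > 1` since `ζ - 1` is a unit), `r` a prime divisor of
`o` (`r ≠ p`), `n₁ = n ^ (o / r)`, `ζ₁ = ζ ^ (o / r)`, `ζ₁ ^ r = 1`, `ζ₁ ≠ 1`. `ζ₁ - 1` is a unit:
otherwise `ζ₁ = 1 + p y`, `ζ₁ ^ (p ^ (c-1)) = 1` (as `p ^ c = 0`), and `r ≠ p` gives `ζ₁ = 1`.
`D = ker π` (as a subgroup of `T`), `Γ = N ⊔ zpowers n₁ = {x n₁ ^ i}`,
`D' = D ⊔ zpowers (n₁ ^ r) = {x n₁ ^ (r i) | x ∈ D}`, normal in `Γ` (for `x ∈ N`,
`π (n₁ x n₁⁻¹) = ζ₁ π x`, so `n₁ ^ r x n₁ ^ (-r) x⁻¹ ∈ D`), `N ∩ D' = D` (an element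
`n₁ ^ (r i) ∈ A` has order a power of `p` and prime to `p`, so it is `1`). `P = Γ ⧸ D'`;
`e : Multiplicative R →* P` from `N ⧸ D ≃ R` (injective). `σ` is trivial on `A`,
`σ n₁ = z⁻¹ (n₁ z n₁⁻¹) n₁` and `π (z⁻¹ (n₁ z n₁⁻¹)) = ζ₁ - 1`. So `σ` preserves `Γ` and `D'`
(`σ (n₁ ^ r) = (z⁻¹ n₁ ^ r z n₁ ^ (-r)) n₁ ^ r`, the first factor in `D`) and induces `τ` on `P`
with `τ (e y) = e y`, `τ (class of n₁) = e (ζ₁ - 1) (class of n₁)`. QTL and GRB. -/
def GSEStmt : Prop :=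
  ∀ (T : Type) [Group T] [Finite T] (p b c m : ℕ) (A : Subgroup T) (z n : T), p.Prime → p ≠ 2 →
    1 ≤ b → 1 ≤ c → IsPGroup p A → (∀ x ∈ A, ∀ y ∈ A, x * y = y * x) →
    (∀ x, x ∈ A ↔ n * x * n⁻¹ ∈ A) → n ^ m = 1 → ¬ p ∣ m → z ∈ A → z ^ (p ^ c) = 1 →
    n * z ^ (p ^ (c - 1)) ≠ z ^ (p ^ (c - 1)) * n →
    ∀ d : ℕ, SL (tsh (MulAut.conj z⁻¹ : MulAut T) (p ^ b)) d → p ^ (b + c) ∣ d

/-- Row BTR (about 100 lines): transfer. Proof: suppose every element `n` of order prime to `p`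
which normalises `P` commutes with `z`. Then all of `normalizer P` commutes with `z`: `g` is a
product of a power of `p`-power order (in `P`, the unique Sylow subgroup of `normalizer P`, and `P`
is abelian) and a power of order prime to `p`. Let `V : T →* P` be the transfer
(`MonoidHom.transferSylow` or `MonoidHom.transfer`); by `Sylow.conj_eq_normalizer_conj_of_mem`
(fusion in the normaliser) `g⁻¹ * z ^ k * g ∈ P` implies `g⁻¹ * z ^ k * g = z ^ k`, so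
`MonoidHom.transfer_eq_pow`: `V z = z ^ P.index`. `T` is simple and not abelian, so `V` is trivial
(its kernel is normal, and not `⊥` since `P` is abelian): `z ^ P.index = 1`, and the index is prime
to `p`: `z = 1`. -/
def BTRStmt : Prop :=
  ∀ (T : Type) [Group T] [Finite T] (p : ℕ) [Fact p.Prime] (P : Sylow p T) (z : T),
    IsSimpleGroup T → (¬ ∀ a c : T, a * c = c * a) → (∀ x ∈ P, ∀ y ∈ P, x * y = y * x) → z ∈ P →
    z ≠ 1 → ∃ (n : T) (m : ℕ), n ^ m = 1 ∧ ¬ p ∣ m ∧ (∀ x, x ∈ P ↔ n * x * n⁻¹ ∈ P) ∧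
      n * z ≠ z * n

/-- The condition on simple groups, with a fourth possibility. -/
def Good3 (p : ℕ) (T : Type) [Group T] : Prop :=
  ∀ (σ : MulAut T) (N m : ℕ), σ ^ (p ^ N) = 1 → σ ^ (p ^ m) ≠ 1 →
    Sec p m σ ∨
    (∃ (t : T) (c : ℕ), m + 1 ≤ c ∧ Cyc p c (MulAut.conj t * σ) ∧
      ∀ d : ℕ, GLaw T d → p ^ (m + 1) ∣ ed d) ∨
    (∀ b : ℕ, Wr p σ b m) ∨
    ((∀ b : ℕ, 1 ≤ b → Wr p σ b m) ∧ ∀ d : ℕ, GLaw T d → p ^ (m + 1) ∣ ed d)

/-- Row CP3 (about 180 lines: copy of `H88/ENR/CPC.lean` with one more case). In the fourth case: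
if `b = 0` then `k = 1`, `GLaw G d` restricts to `GLaw S d` and `p ^ (m + 1) ∣ ed d`; if `b ≥ 1`
then `Wr p α b m` applies to `SL (tsh α k) d`. (`GIS` is not needed if `Good3` is transported
along `S ≃* T` directly: prove that first, as in GIS.) -/
def CP3Stmt : Prop :=
  ∀ (p : ℕ) (T : Type) [Group T] [Finite T], p.Prime → Good3 p T → CompProp p T

/-- Row ABG (about 80 lines; needs GSE, BTR): the reduction theorem for abelian Sylow subgroups.
Proof: let `σ = conj t₀`, `σ ^ (p ^ N) = 1`, `σ ^ (p ^ m) ≠ 1`; as in row REA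
(`H71/ENR/REA.lean`) `σ = conj t₁` with `t₁` of order `p ^ c`, and `c ≥ m + 1`. Let `P` be a Sylow
subgroup containing `t₁`, `z = t₁⁻¹`; `z ^ (p ^ (c-1)) ≠ 1`, BTR gives `n, m'`; GSE with
`A = P`: for `b ≥ 1`, `SL (tsh σ (p ^ b)) d` implies `p ^ (b + c) ∣ d`, so
`p ^ (b + m + 1) ∣ ed d`. And `GLaw T d → p ^ c ∣ ed d` is a hypothesis. So the fourth case of
`Good3` holds. -/
def ABGStmt : Prop :=
  ∀ (T : Type) [Group T] [Finite T] (p : ℕ) [Fact p.Prime], p ≠ 2 → IsSimpleGroup T →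
    (¬ ∀ a c : T, a * c = c * a) →
    (∀ P : Sylow p T, ∀ x ∈ P, ∀ y ∈ P, x * y = y * x) →
    (∀ σ : MulAut T, (∃ N : ℕ, σ ^ (p ^ N) = 1) → ∃ t : T, σ = MulAut.conj t) →
    (∀ (z : T) (c : ℕ), orderOf z = p ^ c → ∀ d : ℕ, GLaw T d → p ^ c ∣ ed d) → Good3 p T

end Pool.ENR
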