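import Pool.Agent.H29.ENR.Stmts7

/-!
# Board enr, part 8: the law of the almost simple group `T ⟨σ⟩`
-/

set_option autoImplicit false

namespace Pool.ENR

open Pool.Agent.H81.ENG

/-- The subgroup `T ⟨σ⟩` of `Aut T` generated by the inner automorphisms and `σ`. -/
def ASg {T : Type} [Group T] (σ : MulAut T) : Subgroup (MulAut T) :=
  Subgroup.closure (Set.range (fun t : T => (MulAut.conj t : MulAut T)) ∪ {σ})

/-- The condition on simple groups, most general form: the law of `T ⟨σ⟩` may be used. -/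
def Good6 (p : ℕ) (T : Type) [Group T] : Prop :=
  ∀ (σ : MulAut T) (N m : ℕ), σ ^ (p ^ N) = 1 → σ ^ (p ^ m) ≠ 1 →
    Sec p m σ ∨
    (∃ (t : T) (c : ℕ), m + 1 ≤ c ∧ Cyc p c (MulAut.conj t * σ) ∧
      ∀ d : ℕ, GLaw (ASg σ) d → p ^ (m + 1) ∣ ed d) ∨
    (∀ b : ℕ, Wr p σ b m) ∨
    ((∃ t : T, ∀ b : ℕ, 1 ≤ b → Wr p (MulAut.conj t * σ) b m) ∧
      ∀ d : ℕ, GLaw (ASg σ) d → p ^ (m + 1) ∣ ed d)

/-- Row CP6 (copy of `CP5`, about 30 new lines). The only change: in the case `b = 0` (`k = 1`, `y`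
normalises `S`, `α` = conjugation by `y⁻¹` on `S`) one has `GLaw (ASg α) d`: the homomorphism
`ρ : normalizer S →* MulAut S` (`Subgroup.normalizerMonoidHom` or `MulAut.conjNormal` for the
subgroup `S` of its normaliser) has `ASg α` in its range (`conj s = ρ s`, `α = ρ y⁻¹`), and `GLaw`
passes to subgroups (of `G`) and to images of surjective homomorphisms (here
`ρ⁻¹ (ASg α) → ASg α`); prove these two facts as lemmas `GLaw.of_inj`, `GLaw.of_surj`. -/
def CP6Stmt : Prop :=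
  ∀ (p : ℕ) (T : Type) [Group T] [Finite T], p.Prime → Good6 p T → CompProp p T

/-- Row AS1 (about 60 lines). Proof: `t ↦ conj t` is an injective homomorphism `T →* ASg σ` (the
centre of `T` is trivial), so `GLaw T d`. For `τ = conj t * σ ∈ ASg σ`: the conjugation by `τ` on
`ASg σ` satisfies `SL` (`GLaw.sl` for `y = τ⁻¹`), `conj (τ x) = τ (conj x) τ⁻¹`, so
`SL.of_inj` for `T →* ASg σ` gives `SL τ d`. -/
def AS1Stmt : Prop :=
  ∀ (T : Type) [Group T] (σ : MulAut T), (∀ t : T, MulAut.conj t = 1 → t = 1) → ∀ d : ℕ,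
    GLaw (ASg σ) d → GLaw T d ∧ ∀ t : T, SL (MulAut.conj t * σ) d

end Pool.ENR
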