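import Pool.Agent.H1.ENR.CP6
import Pool.Agent.H1.ENR.Q7B
import Pool.Agent.H1.ENR.SB1
import Pool.Agent.H12.ENR.PCA
import Pool.Agent.H14.ENR.CYB
import Pool.Agent.H16.ENR.CYN
import Pool.Agent.H17.ENR.NFM
import Pool.Agent.H18.ENR.NUM
import Pool.Agent.H21.ENR.CYR
import Pool.Agent.H22.ENR.CEN
import Pool.Agent.H22.ENR.CMM
import Pool.Agent.H22.ENR.QTL
import Pool.Agent.H23.ENR.FXY
import Pool.Agent.H23.ENR.SEC
import Pool.Agent.H24.ENR.SE4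
import Pool.Agent.H25.ENR.Q7A
import Pool.Agent.H26.ENR.TRI
import Pool.Agent.H29.ENR.OPG2
import Pool.Agent.H29.ENR.PIG2
import Pool.Agent.H3.ENR.SY4
import Pool.Agent.H3.ENR.TRV
import Pool.Agent.H31.ENR.SCJ
import Pool.Agent.H31.ENR.SQP
import Pool.Agent.H33.ENR.TR3
import Pool.Agent.H36.ENR.AS2
import Pool.Agent.H36.ENR.UTY
import Pool.Agent.H40.ENR.BRG
import Pool.Agent.H44.ENR.FUU
import Pool.Agent.H45.ENR.COP
import Pool.Agent.H45.ENR.SE1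
import Pool.Agent.H45.ENR.WCJ
import Pool.Agent.H46.ENR.GP3
import Pool.Agent.H48.ENR.SE3
import Pool.Agent.H49.ENR.FXC
import Pool.Agent.H50.ENR.BR2
import Pool.Agent.H50.ENR.CAL
import Pool.Agent.H50.ENR.NSP
import Pool.Agent.H51.ENR.CSY
import Pool.Agent.H52.ENR.LRQ
import Pool.Agent.H52.ENR.NRM
import Pool.Agent.H53.ENR.CHP
import Pool.Agent.H53.ENR.DED
import Pool.Agent.H53.ENR.PB2
import Pool.Agent.H54.ENR.UNK
import Pool.Agent.H54.ENR.UTV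
import Pool.Agent.H55.ENR.PRD
import Pool.Agent.H55.ENR.Q7M
import Pool.Agent.H55.ENR.UT0
import Pool.Agent.H56.ENR.AFK
import Pool.Agent.H62.ENR.FLD
import Pool.Agent.H62.ENR.LRF
import Pool.Agent.H62.ENR.TS1
import Pool.Agent.H64.ENR.UN2
import Pool.Agent.H65.ENR.INV
import Pool.Agent.H65.ENR.UTG
import Pool.Agent.H67.ENR.H9A
import Pool.Agent.H70.ENR.CYT
import Pool.Agent.H70.ENR.SQC
import Pool.Agent.H71.ENR.GPS
import Pool.Agent.H71.ENR.SQA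
import Pool.Agent.H74.ENR.ORB
import Pool.Agent.H77.ENR.BRP
import Pool.Agent.H78.ENR.GP2
import Pool.Agent.H78.ENR.LIF
import Pool.Agent.H78.ENR.PB3
import Pool.Agent.H80.ENR.AS1
import Pool.Agent.H80.ENR.CYP
import Pool.Agent.H80.ENR.SQE
import Pool.Agent.H86.ENR.LTE
import Pool.Agent.H88.ENR.TRC
import Pool.Agent.H89.ENR.AFF
import Pool.Agent.H91.ENR.PB1
import Pool.Agent.H91.ENR.POW
import Pool.Agent.H91.ENR.Q3C
import Pool.Agent.H93.ENR.H9M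
import Pool.Agent.H97.ENR.GP1
import Pool.Agent.H99.ENR.CHG

/-! The board enr, assembled. -/

set_option autoImplicit false

namespace Pool.ENR.Top2

open Pool.ENR

theorem t_OPG2 : OPG2Stmt := opg2_thm
theorem t_PIG2 : PIG2Stmt := pig2_thm t_OPG2
theorem t_CAL : CALStmt := cal_thm
theorem t_PRD : PRDStmt := prd_thm
theorem t_CHG : CHGStmt := chg_thm
theorem t_QTL : QTLStmt := qtl_thm
theorem t_COP : COPStmt := cop_thm
theorem t_SEC : SECStmt := sec_thm t_QTL t_COP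
theorem t_CYP : CYPStmt := cyp_thm
theorem t_FLD : FLDStmt := fld_thm
theorem t_LIF : LIFStmt := lif_thm
theorem t_CHP : CHPStmt := chp_thm t_FLD t_LIF
theorem t_AFF : AFFStmt := aff_thm t_CHP
theorem t_NUM : NUMStmt := num_thm
theorem t_UN2 : UN2Stmt := un2_thm
theorem t_CYB : CYBStmt := cyb_thm t_AFF t_NUM t_UN2
theorem t_CYR : CYRStmt := cyr_thm t_CYP t_QTL t_CYB
theorem t_TRV : TRVStmt := trv_thm
theorem t_CP6 : CP6Stmt := cp6_thm t_PRD t_CHG t_SEC t_CYR t_TRV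
theorem t_AS1 : AS1Stmt := as1_thm
theorem t_FXY : FXYStmt := fxy_thm
theorem t_FUU : FUUStmt := fuu_thm t_FXY
theorem t_TRI : TRIStmt := tri_thm
theorem t_DED : DEDStmt := ded_thm
theorem t_H9M : H9MStmt := h9m_thm t_DED
theorem t_NFM : NFMStmt := nfm_thm t_TRI t_H9M
theorem t_POW : POWStmt := pow_thm
theorem t_SE3 : SE3Stmt := se3_thm t_POW
theorem t_H9A : H9AStmt := h9a_thm t_DED
theorem t_SE4 : SE4Stmt := se4_thm t_POW t_H9A
theorem t_TRC : TRCStmt := trc_thm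
theorem t_UT0 : UT0Stmt := ut0_thm t_TRC
theorem t_LRF : LRFStmt := lrf_thm
theorem t_LRQ : LRQStmt := lrq_thm t_LRF
theorem t_AFK : AFKStmt := afk_thm
theorem t_UNK : UNKStmt := unk_thm t_AFK
theorem t_SQP : SQPStmt := sqp_thm
theorem t_UTV : UTVStmt := utv_thm t_UNK t_SQP
theorem t_SQE : SQEStmt := sqe_thm
theorem t_UTG : UTGStmt := utg_thm t_LRQ t_UTV t_SQE t_SQP
theorem t_UTY : UTYStmt := uty_thm t_UT0 t_UTG t_POW t_SQE t_QTL
theorem t_SCJ : SCJStmt := scj_thm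
theorem t_WCJ : WCJStmt := wcj_thm
theorem t_GP1 : GP1Stmt := gp1_thm t_FUU t_NFM t_POW t_SE3 t_SE4 t_UTY t_SCJ t_WCJ
theorem t_CSY : CSYStmt := csy_thm
theorem t_CEN : CENStmt := cen_thm
theorem t_SE1 : SE1Stmt := se1_thm t_TRI t_CEN
theorem t_GP2 : GP2Stmt := gp2_thm t_CSY t_FUU t_SE1 t_SCJ
theorem t_FXC : FXCStmt := fxc_thm t_FXY
theorem t_CYT : CYTStmt := cyt_thm t_FXC
theorem t_CYN : CYNStmt := cyn_thm t_FXC
theorem t_NRM : NRMStmt := nrm_thm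
theorem t_NSP : NSPStmt := nsp_thm t_NRM
theorem t_PCA : PCAStmt := pca_thm
theorem t_LTE : LTEStmt := lte_thm
theorem t_BRP : BRPStmt := brp_thm t_NRM t_TRC
theorem t_TR3 : TR3Stmt := tr3_thm
theorem t_BRG : BRGStmt := brg_thm t_NSP t_BRP t_TR3
theorem t_GP3 : GP3Stmt := gp3_thm t_CEN t_CYT t_CYN t_NSP t_PCA t_LTE t_BRG
theorem t_GPS : GPSStmt := gps_thm t_GP1 t_GP2 t_GP3
theorem t_PB1 : PB1Stmt := pb1_thm
theorem t_PB2 : PB2Stmt := pb2_thm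
theorem t_PB3 : PB3Stmt := pb3_thm t_PRD t_CHG t_PB1 t_PB2
theorem t_SQC : SQCStmt := sqc_thm t_PRD t_CHG t_PB3
theorem t_INV : INVStmt := inv_thm
theorem t_SQA : SQAStmt := sqa_thm t_PB1 t_SE1 t_SCJ t_SEC t_INV
theorem t_ORB : ORBStmt := orb_thm
theorem t_SY4 : SY4Stmt := sy4_thm t_ORB t_CSY
theorem t_AS2 : AS2Stmt := as2_thm
theorem t_TS1 : TS1Stmt := TS1_thm
theorem t_SB1 : SB1Stmt := SB1_thm t_SY4 t_SE1 t_SCJ t_SEC t_CEN t_AS2 t_TS1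
theorem t_Q7A : Q7AStmt := q7a_thm
theorem t_Q7M : Q7MStmt := q7m_thm
theorem t_CMM : CMMStmt := cmm_thm
theorem t_BR2 : BR2Stmt := br2_thm
theorem t_Q3C : Q3CStmt := q3c_thm
theorem t_Q7B : Q7BStmt := Q7B_thm t_Q7A t_Q7M t_CMM t_BR2 t_Q3C

end Pool.ENR.Top2
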